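import Pool.Agent.W184.LIP.Defs

set_option autoImplicit false

open Filter Asymptotics

namespace Pool.Agent.W184.LIP.ALBE

theorem bound_le (j : ℕ) (hj : 1 ≤ j) : ∃ K : ℝ, 0 < K ∧ ∀ s : ℕ, 1 ≤ s →
    (((11 * ((2 * s) ^ (2 * j) + 1)) ^ (2 * (2 * s) ^ (j - 1) + 1) * 4 ^ (2 * (2 * s) ^ j) : ℕ) : ℝ)
      ≤ Real.exp (K * (s : ℝ) ^ j) := by
  obtain ⟨i, rfl⟩ : ∃ i, j = i + 1 := ⟨j - 1, by omega⟩
  have hl22 : 0 ≤ Real.log 22 := Real.log_nonneg (by norm_num)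
  have hl4 : 0 ≤ Real.log 4 := Real.log_nonneg (by norm_num)
  refine ⟨3 * 2 ^ i * (Real.log 22 + 4 * (i + 1)) + 2 * 2 ^ (i + 1) * Real.log 4, by positivity, ?_⟩
  intro s hs
  have hs1 : (1 : ℝ) ≤ s := by exact_mod_cast hs
  have hs0 : (0 : ℝ) < s := by linarith
  have h2s : (1 : ℝ) ≤ 2 * s := by linarith
  have hpos : (0 : ℝ) < (((11 * ((2 * s) ^ (2 * (i + 1)) + 1)) ^ (2 * (2 * s) ^ (i + 1 - 1) + 1) *
      4 ^ (2 * (2 * s) ^ (i + 1)) : ℕ) : ℝ) := by positivity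
  rw [← Real.log_le_iff_le_exp hpos]
  push_cast
  have hA : (0 : ℝ) < 11 * ((2 * (s : ℝ)) ^ (2 * (i + 1)) + 1) := by positivity
  rw [Real.log_mul (by positivity) (by positivity), Real.log_pow, Real.log_pow]
  have h1 : Real.log (11 * ((2 * (s : ℝ)) ^ (2 * (i + 1)) + 1)) ≤
      (Real.log 22 + 4 * (i + 1)) * s := by
    have h3 : (1 : ℝ) ≤ (2 * (s : ℝ)) ^ (2 * (i + 1)) := one_le_pow₀ h2s
    have h4 : 11 * ((2 * (s : ℝ)) ^ (2 * (i + 1)) + 1) ≤ 22 * (2 * (s : ℝ)) ^ (2 * (i + 1)) := by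
      linarith
    have h5 := Real.log_le_log hA h4
    have h5' : Real.log (22 * (2 * (s : ℝ)) ^ (2 * (i + 1))) =
        Real.log 22 + ((2 * (i + 1) : ℕ) : ℝ) * Real.log (2 * (s : ℝ)) := by
      rw [Real.log_mul (by norm_num) (by positivity), Real.log_pow]
    rw [h5'] at h5
    have h6 : Real.log (2 * (s : ℝ)) ≤ 2 * s := by
      have := Real.log_le_sub_one_of_pos (show (0 : ℝ) < 2 * s by positivity)
      linarith
    have h7 : ((2 * (i + 1) : ℕ) : ℝ) * Real.log (2 * (s : ℝ)) ≤ ((2 * (i + 1) : ℕ) : ℝ) * (2 * s) :=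
      mul_le_mul_of_nonneg_left h6 (by positivity)
    push_cast at h5 h7
    nlinarith
  have h2 : (2 * (2 * (s : ℝ)) ^ i + 1) ≤ 3 * (2 * (s : ℝ)) ^ i := by
    have : (1 : ℝ) ≤ (2 * (s : ℝ)) ^ i := one_le_pow₀ h2s
    linarith
  have hlA : 0 ≤ Real.log (11 * ((2 * (s : ℝ)) ^ (2 * (i + 1)) + 1)) := by
    apply Real.log_nonneg
    have h3 : (1 : ℝ) ≤ (2 * (s : ℝ)) ^ (2 * (i + 1)) := one_le_pow₀ h2s
    linarith
  have h8 : (((2 * (2 * s) ^ i + 1 : ℕ) : ℝ)) * Real.log (11 * ((2 * (s : ℝ)) ^ (2 * (i + 1)) + 1))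
      ≤ 3 * (2 * (s : ℝ)) ^ i * ((Real.log 22 + 4 * (i + 1)) * s) := by
    push_cast
    exact mul_le_mul h2 h1 hlA (by positivity)
  have h9 : (((2 * (2 * s) ^ (i + 1) : ℕ) : ℝ)) * Real.log 4 = 2 * 2 ^ (i + 1) * Real.log 4 *
      (s : ℝ) ^ (i + 1) := by
    push_cast
    rw [mul_pow]; ring
  have h10 : 3 * (2 * (s : ℝ)) ^ i * ((Real.log 22 + 4 * (i + 1)) * s) =
      3 * 2 ^ i * (Real.log 22 + 4 * (i + 1)) * (s : ℝ) ^ (i + 1) := by
    rw [mul_pow]; ring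
  rw [h9]
  rw [h10] at h8
  rw [add_mul]
  exact add_le_add h8 le_rfl

theorem pf : S_FLB → S_ALBE := by
  intro H j hj
  obtain ⟨K, hK, hb⟩ := bound_le j hj
  have hj0 : (0 : ℝ) < j := by exact_mod_cast hj
  refine IsBigO.of_bound ((2 * K) ^ ((1 : ℝ) / j)) ?_
  filter_upwards [eventually_ge_atTop (⌈Real.exp (2 * K)⌉₊ + 1)] with n hn
  have hn1 : Real.exp (2 * K) ≤ n := (Nat.le_ceil _).trans (by exact_mod_cast (by omega))
  have hn0 : (0 : ℝ) < n := (Real.exp_pos _).trans_le hn1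
  have hlog : 2 * K ≤ Real.log n := (Real.le_log_iff_exp_le hn0).2 hn1
  have hlog0 : 0 < Real.log n := by linarith
  set y : ℝ := Real.log n / (2 * K) with hy
  have hy1 : 1 ≤ y := by rw [hy, le_div_iff₀ (by linarith)]; linarith
  have hy0 : 0 ≤ y := by linarith
  set x : ℝ := y ^ ((1 : ℝ) / j) with hx
  have hx1 : 1 ≤ x := Real.one_le_rpow hy1 (by positivity)
  have hx0 : 0 ≤ x := by linarith
  have hxj : x ^ j = y := by
    rw [hx, ← Real.rpow_natCast, ← Real.rpow_mul hy0, one_div, inv_mul_cancel₀ hj0.ne', Real.rpow_one]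
  set s : ℕ := ⌊x⌋₊ with hs
  have hs1 : 1 ≤ s := Nat.le_floor (by simpa using hx1)
  have hsx : (s : ℝ) ≤ x := Nat.floor_le hx0
  have hsj : (s : ℝ) ^ j ≤ y := hxj ▸ pow_le_pow_left₀ (by positivity) hsx j
  have hlt : (((11 * ((2 * s) ^ (2 * j) + 1)) ^ (2 * (2 * s) ^ (j - 1) + 1) *
      4 ^ (2 * (2 * s) ^ j) : ℕ) : ℝ) < n := by
    refine (hb s hs1).trans_lt ?_
    have h1 : K * (s : ℝ) ^ j ≤ Real.log n / 2 := by
      have : K * (s : ℝ) ^ j ≤ K * y := mul_le_mul_of_nonneg_left hsj hK.le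
      have h2 : K * y = Real.log n / 2 := by rw [hy]; field_simp
      linarith
    calc Real.exp (K * (s : ℝ) ^ j) ≤ Real.exp (Real.log n / 2) := Real.exp_le_exp.2 h1
      _ < Real.exp (Real.log n) := Real.exp_lt_exp.2 (by linarith)
      _ = n := Real.exp_log hn0
  have hf := H (2 * j) (j - 1) j s n hs1 (by omega) (by omega) (by omega) (by exact_mod_cast hlt)
  have hf' : x ≤ (f (2 * j) n : ℝ) := by
    have h1 : x < s + 1 := Nat.lt_floor_add_one x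
    have h2 : ((s + 1 : ℕ) : ℝ) ≤ (f (2 * j) n : ℝ) := by exact_mod_cast hf
    push_cast at h2
    linarith
  rw [Real.norm_of_nonneg (Real.rpow_nonneg hlog0.le _), Real.norm_of_nonneg (by positivity)]
  have hlogy : Real.log n = 2 * K * y := by rw [hy]; field_simp
  rw [hlogy, Real.mul_rpow (by linarith) hy0]
  exact mul_le_mul_of_nonneg_left hf' (Real.rpow_nonneg (by linarith) _)

end Pool.Agent.W184.LIP.ALBE
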