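import Pool.Agent.W184.LIP.Defs

/-!
# Long induced paths in bounded treewidth: the odd lower bound (ALBO)
-/

namespace Pool.Agent.W184.LIP.ALBO

open Filter Asymptotics Pool.Agent.W184.LIP

theorem logbound (j s : ℕ) (hs : 1 ≤ s) :
    Real.log (((11 * ((2 * s) ^ (2 * j + 1) + 1)) ^ (2 * (2 * s) ^ j + 1) *
        4 ^ (2 * (2 * s) ^ j) : ℕ) : ℝ)
      ≤ (2 ^ j * (12 * j + 19) : ℝ) * ((s : ℝ) ^ j * Real.log (s + 2)) := by
  have hs' : (1 : ℝ) ≤ s := by exact_mod_cast hs
  have hl : Real.log 3 ≤ Real.log (s + 2) := Real.log_le_log (by norm_num) (by linarith)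
  have hl0 : 0 < Real.log 3 := Real.log_pos (by norm_num)
  push_cast
  rw [Real.log_mul (by positivity) (by positivity), Real.log_pow, Real.log_pow]
  push_cast
  set P : ℝ := (2 * (s : ℝ)) ^ j with hP
  set l : ℝ := Real.log (s + 2) with hldef
  have hP1 : 1 ≤ P := one_le_pow₀ (by linarith)
  have hA : Real.log (11 * ((2 * (s : ℝ)) ^ (2 * j + 1) + 1)) ≤ (4 * j + 5) * l := by
    have h1 : (1 : ℝ) ≤ (2 * (s : ℝ)) ^ (2 * j + 1) := one_le_pow₀ (by linarith)
    have h2 : Real.log (11 * ((2 * (s : ℝ)) ^ (2 * j + 1) + 1)) ≤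
        Real.log (3 ^ 3 * (2 * (s : ℝ)) ^ (2 * j + 1)) :=
      Real.log_le_log (by positivity) (by nlinarith)
    have h3 : Real.log (3 ^ 3 * (2 * (s : ℝ)) ^ (2 * j + 1)) =
        3 * Real.log 3 + (2 * j + 1) * Real.log (2 * s) := by
      rw [Real.log_mul (by positivity) (by positivity), Real.log_pow, Real.log_pow]
      push_cast
      ring
    have h4 : Real.log (2 * (s : ℝ)) ≤ 2 * l := by
      have : Real.log (2 * (s : ℝ)) ≤ Real.log (((s : ℝ) + 2) ^ 2) :=
        Real.log_le_log (by positivity) (by nlinarith)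
      rw [Real.log_pow] at this
      push_cast at this
      exact this
    have h5 : (0 : ℝ) ≤ 2 * j + 1 := by positivity
    nlinarith
  have h4 : Real.log 4 ≤ 2 * l := by
    have : Real.log (4 : ℝ) ≤ Real.log ((3 : ℝ) ^ 2) :=
      Real.log_le_log (by positivity) (by norm_num)
    rw [Real.log_pow] at this
    push_cast at this
    linarith
  have hPe : P = 2 ^ j * (s : ℝ) ^ j := by rw [hP, mul_pow]
  have hl1 : 0 < l := lt_of_lt_of_le hl0 hl
  have hA0 : 0 ≤ (4 * (j : ℝ) + 5) * l := by positivity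
  calc (2 * P + 1) * Real.log (11 * ((2 * (s : ℝ)) ^ (2 * j + 1) + 1)) + 2 * P * Real.log 4
      ≤ (2 * P + 1) * ((4 * j + 5) * l) + 2 * P * (2 * l) := by
        gcongr
    _ ≤ (3 * P) * ((4 * j + 5) * l) + 2 * P * (2 * l) := by
        gcongr
        linarith
    _ = (2 ^ j * (12 * j + 19)) * ((s : ℝ) ^ j * l) := by
        rw [hPe]; ring

theorem pf : S_FLB → S_ALBO := by
  intro hF j hj
  set K : ℝ := 2 ^ j * (12 * j + 19) with hK
  have hK1 : 1 ≤ K := by
    have h1 : (1 : ℝ) ≤ 2 ^ j := one_le_pow₀ (by norm_num)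
    have h2 : (0 : ℝ) ≤ j := by positivity
    nlinarith
  set c : ℝ := 1 / (2 * K) with hc
  have hc0 : 0 < c := by positivity
  have hKc : K * c = 1 / 2 := by rw [hc]; field_simp
  have hc1 : c ≤ 1 := by
    rw [hc, div_le_one (by positivity)]; linarith
  rw [isBigO_iff]
  refine ⟨1 / c, ?_⟩
  have hL : Tendsto (fun n : ℕ => Real.log (n : ℝ)) atTop atTop :=
    Real.tendsto_log_atTop.comp tendsto_natCast_atTop_atTop
  have hM : Tendsto (fun n : ℕ => Real.log (Real.log (n : ℝ))) atTop atTop :=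
    Real.tendsto_log_atTop.comp hL
  have h1 : ∀ᶠ n : ℕ in atTop, 2 ≤ Real.log (Real.log (n : ℝ)) := hM.eventually_ge_atTop 2
  have h2 : ∀ᶠ n : ℕ in atTop, 4 ≤ Real.log (n : ℝ) := hL.eventually_ge_atTop 4
  have h3 : ∀ᶠ n : ℕ in atTop, ‖Real.log (Real.log (n : ℝ))‖ ≤ c ^ j * ‖id (Real.log (n : ℝ))‖ :=
    hL.eventually (Real.isLittleO_log_id_atTop.bound (pow_pos hc0 j))
  filter_upwards [h1, h2, h3, eventually_ge_atTop 1] with n hn1 hn2 hn3 hn0
  set L : ℝ := Real.log (n : ℝ) with hLdef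
  set M : ℝ := Real.log L with hMdef
  set x : ℝ := (L / M) ^ ((1 : ℝ) / j) with hx
  have hL0 : 0 < L := by linarith
  have hM0 : 0 < M := by linarith
  have hj0 : (j : ℝ) ≠ 0 := by
    have : (1 : ℝ) ≤ j := by exact_mod_cast hj
    linarith
  have hx0 : 0 ≤ x := by positivity
  have hxj : x ^ j = L / M := by
    rw [hx, ← Real.rpow_natCast, ← Real.rpow_mul (by positivity), one_div,
      inv_mul_cancel₀ hj0, Real.rpow_one]
  rw [Real.norm_of_nonneg hM0.le, id, Real.norm_of_nonneg hL0.le] at hn3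
  have hcxj : (c * x) ^ j = c ^ j * (L / M) := by rw [mul_pow, hxj]
  have hcx : 1 ≤ c * x := by
    have h : 1 ≤ (c * x) ^ j := by
      rw [hcxj, ← mul_div_assoc, le_div_iff₀ hM0]; linarith
    by_contra hlt
    push Not at hlt
    exact absurd (pow_lt_one₀ (by positivity) hlt (by omega)) (not_lt.mpr h)
  have hx1 : 1 ≤ x := by nlinarith
  set s : ℕ := ⌊c * x⌋₊ with hs
  have hs1 : 1 ≤ s := Nat.le_floor (by simpa using hcx)
  have hsx : (s : ℝ) ≤ c * x := Nat.floor_le (by positivity)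
  have hxlt : c * x < s + 1 := Nat.lt_floor_add_one _
  have hs2 : (s : ℝ) + 2 ≤ L := by
    have e1 : x ≤ L / M := by
      rw [← hxj]; exact le_self_pow₀ hx1 (by omega)
    have e2 : L / M ≤ L / 2 := div_le_div_of_nonneg_left hL0.le (by norm_num) hn1
    have e3 : c * x ≤ x := by nlinarith
    linarith
  have hb : (11 * ((2 * s) ^ (2 * j + 1) + 1)) ^ (2 * (2 * s) ^ j + 1) *
      4 ^ (2 * (2 * s) ^ j) < n := by
    by_contra hge
    push Not at hge
    have g1 : L ≤ Real.log (((11 * ((2 * s) ^ (2 * j + 1) + 1)) ^ (2 * (2 * s) ^ j + 1) *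
        4 ^ (2 * (2 * s) ^ j) : ℕ) : ℝ) :=
      Real.log_le_log (by exact_mod_cast hn0) (by exact_mod_cast hge)
    have g2 := logbound j s hs1
    have g3 : Real.log ((s : ℝ) + 2) ≤ M := Real.log_le_log (by positivity) hs2
    have g4 : (s : ℝ) ^ j ≤ c ^ j * (L / M) := by
      rw [← hcxj]; exact pow_le_pow_left₀ (by positivity) hsx j
    have g5 : c ^ j ≤ c := pow_le_of_le_one hc0.le hc1 (by omega)
    have g0 : 0 ≤ Real.log ((s : ℝ) + 2) := Real.log_nonneg (by linarith)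
    have g6 : (s : ℝ) ^ j * Real.log ((s : ℝ) + 2) ≤ c * L := by
      calc (s : ℝ) ^ j * Real.log ((s : ℝ) + 2) ≤ (c ^ j * (L / M)) * M := by
            gcongr
        _ = c ^ j * L := by field_simp
        _ ≤ c * L := by gcongr
    have g7 : K * ((s : ℝ) ^ j * Real.log ((s : ℝ) + 2)) ≤ K * (c * L) := by gcongr
    have g8 : K * (c * L) = L / 2 := by rw [← mul_assoc, hKc]; ring
    linarith
  have hfin := hF (2 * j + 1) j j s n hs1 le_rfl (by omega) (by omega) hb
  have hfin' : (s : ℝ) + 1 ≤ (f (2 * j + 1) n : ℝ) := by exact_mod_cast hfin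
  rw [Real.norm_of_nonneg hx0, Real.norm_of_nonneg (by positivity), div_mul_eq_mul_div,
    le_div_iff₀ hc0]
  linarith

end Pool.Agent.W184.LIP.ALBO
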