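import Pool.Agent.W184.LIP.Defs

set_option autoImplicit false

namespace Pool.Agent.W184.LIP.AUBE

open Filter Asymptotics

theorem pf : S_FUB → S_AUBE := by
  intro hF j hj
  have hj0 : (j : ℕ) ≠ 0 := by omega
  refine Asymptotics.IsBigO.of_bound (1 + 8 * (j : ℝ)) ?_
  filter_upwards [eventually_ge_atTop 3] with n hn
  have hnR : (3 : ℝ) ≤ n := by exact_mod_cast hn
  have hlog1 : 1 ≤ Real.log n := by
    rw [Real.le_log_iff_exp_le (by linarith)]
    have := Real.exp_one_lt_d9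
    linarith
  set L : ℝ := Real.log n ^ ((1 : ℝ) / j) with hL
  have hL1 : 1 ≤ L := Real.one_le_rpow hlog1 (by positivity)
  have hLj : L ^ j = Real.log n := by
    rw [hL, one_div]
    exact Real.rpow_inv_natCast_pow (by linarith) hj0
  set s : ℕ := ⌈3 * L⌉₊ with hs
  have hs1 : 3 * L ≤ s := Nat.le_ceil _
  have hs2 : (s : ℝ) < 3 * L + 1 := Nat.ceil_lt_add_one (by linarith)
  have hsj : 3 * Real.log n ≤ ((s ^ j : ℕ) : ℝ) := by
    push_cast
    calc 3 * Real.log n = 3 * L ^ j := by rw [hLj]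
      _ ≤ 3 ^ j * L ^ j := by
          apply mul_le_mul_of_nonneg_right _ (by positivity)
          calc (3 : ℝ) = 3 ^ 1 := by norm_num
            _ ≤ 3 ^ j := pow_le_pow_right₀ (by norm_num) hj
      _ = (3 * L) ^ j := by rw [mul_pow]
      _ ≤ (s : ℝ) ^ j := pow_le_pow_left₀ (by linarith) hs1 j
  have hpow : n + 1 ≤ 2 ^ (s ^ j) := by
    have h1 : ((n : ℝ) + 1) ≤ (2 : ℝ) ^ (s ^ j) := by
      have h2 : (2 : ℝ) ^ (s ^ j) = Real.exp (Real.log 2 * ((s ^ j : ℕ) : ℝ)) := by
        rw [Real.exp_mul, Real.exp_log (by norm_num), Real.rpow_natCast]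
      rw [h2]
      have h3 : 2 * Real.log n ≤ Real.log 2 * ((s ^ j : ℕ) : ℝ) := by
        have := Real.log_two_gt_d9
        nlinarith
      calc (n : ℝ) + 1 ≤ n * n := by nlinarith
        _ = Real.exp (2 * Real.log n) := by
            rw [two_mul, Real.exp_add, Real.exp_log (by linarith)]
        _ ≤ _ := Real.exp_le_exp.mpr h3
    exact_mod_cast h1
  have hsge : 1 ≤ s := by
    have : (0 : ℝ) < s := by linarith
    exact_mod_cast this
  have hb := hF j s 1 0 n hsge le_rfl (Or.inl rfl) (by norm_num; omega)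
  have hb' : ((f (2 * j) n : ℕ) : ℝ) ≤ 1 + 2 * j * s := by exact_mod_cast hb
  rw [Real.norm_of_nonneg (by positivity), Real.norm_of_nonneg (by linarith)]
  calc ((f (2 * j) n : ℕ) : ℝ) ≤ 1 + 2 * j * s := hb'
    _ ≤ 1 + 2 * j * (4 * L) := by
        have : (s : ℝ) ≤ 4 * L := by linarith
        gcongr
    _ ≤ (1 + 8 * (j : ℝ)) * L := by nlinarith

end Pool.Agent.W184.LIP.AUBE
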