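import Pool.Agent.W184.LIP.Defs

/-! Part AUBO of the project LP (MP_6d7b3f_co): the odd upper bound. -/

set_option autoImplicit false

namespace Pool.Agent.W184.LIP.AUBO

open Pool.Agent.W184.LIP Filter Asymptotics

theorem log_le_half (y : ℝ) (hy : 0 < y) : Real.log y ≤ y / 2 := by
  have h1 := Real.log_le_sub_one_of_pos (show 0 < y / 2 by positivity)
  have h2 : Real.log y = Real.log (y / 2) + Real.log 2 := by
    rw [← Real.log_mul (by positivity) (by norm_num)]
    congr 1
    ring
  have h3 := Real.log_le_sub_one_of_pos (show (0 : ℝ) < 2 by norm_num)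
  rw [h2]
  linarith

theorem pf : S_FUB → S_AUBO := by
  intro h j hj
  have hj1 : (1 : ℝ) ≤ j := by exact_mod_cast hj
  have hj0 : (0 : ℝ) < j := by linarith
  rw [isBigO_iff]
  refine ⟨(2 * j + 1) * (4 * j + 1), ?_⟩
  filter_upwards [eventually_ge_atTop 3] with n hn
  have hn3 : (3 : ℝ) ≤ n := by exact_mod_cast hn
  set L : ℝ := Real.log n with hLdef
  have hL : 1 < L := by
    rw [hLdef, Real.lt_log_iff_exp_lt (by linarith)]
    have := Real.exp_one_lt_d9
    linarith
  set LL : ℝ := Real.log L with hLLdef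
  have hLL : 0 < LL := Real.log_pos hL
  set x : ℝ := L / LL with hx
  have hx2 : 2 ≤ x := by
    rw [hx, le_div_iff₀ hLL]
    have := log_le_half L (by linarith)
    linarith
  set X : ℝ := x ^ ((1 : ℝ) / j) with hX
  have hX1 : 1 ≤ X := Real.one_le_rpow (by linarith) (by positivity)
  have hXj : X ^ j = x := by
    rw [hX, ← Real.rpow_natCast, ← Real.rpow_mul (by linarith)]
    rw [one_div_mul_cancel hj0.ne', Real.rpow_one]
  set s : ℕ := ⌈4 * (j : ℝ) * X⌉₊ with hs
  have hs1 : 4 * (j : ℝ) * X ≤ s := Nat.le_ceil _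
  have hs2 : (s : ℝ) < 4 * j * X + 1 := Nat.ceil_lt_add_one (by positivity)
  have h4 : 4 ≤ 4 * (j : ℝ) * X := by nlinarith
  have hsone : 1 ≤ s := by
    have : (1 : ℝ) ≤ s := by linarith
    exact_mod_cast this
  -- the power
  have hpow : 4 * (j : ℝ) * x ≤ (s : ℝ) ^ j := by
    calc 4 * (j : ℝ) * x ≤ (4 * (j : ℝ)) ^ j * x := by
          apply mul_le_mul_of_nonneg_right _ (by linarith)
          exact le_self_pow₀ (by linarith) (by omega)
      _ = (4 * (j : ℝ) * X) ^ j := by rw [mul_pow (4 * (j : ℝ)) X j, hXj]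
      _ ≤ (s : ℝ) ^ j := pow_le_pow_left₀ (by positivity) hs1 j
  -- the logarithm
  have hlogX : LL / (2 * j) ≤ Real.log ((s : ℝ) + 1) := by
    have h1 : Real.log X ≤ Real.log ((s : ℝ) + 1) := by
      apply Real.log_le_log (by linarith)
      have : X ≤ 4 * (j : ℝ) * X := by nlinarith
      linarith
    have h2 : Real.log X = 1 / j * Real.log x := by
      rw [hX, Real.log_rpow (by linarith)]
    have h3 : Real.log x = LL - Real.log LL := by
      rw [hx, Real.log_div (by linarith) hLL.ne']
    have h5 : Real.log LL ≤ LL / 2 := log_le_half LL hLL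
    have h6 : LL / (2 * j) = 1 / j * (LL / 2) := by
      field_simp
    have h7 : 1 / (j : ℝ) * (LL / 2) ≤ 1 / j * Real.log x := by
      apply mul_le_mul_of_nonneg_left _ (by positivity)
      rw [h3]
      linarith
    rw [h6]
    linarith
  have hkey : Real.log ((n : ℝ) + 1) ≤ (s : ℝ) ^ j * Real.log ((s : ℝ) + 1) := by
    have h1 : Real.log ((n : ℝ) + 1) ≤ 2 * L := by
      have h2 : Real.log ((n : ℝ) + 1) ≤ Real.log ((n : ℝ) ^ 2) :=
        Real.log_le_log (by linarith) (by nlinarith)
      rw [Real.log_pow] at h2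
      push_cast at h2
      exact h2
    have h2 : 2 * L = 4 * (j : ℝ) * x * (LL / (2 * j)) := by
      rw [hx]
      field_simp
      ring
    rw [h2] at h1
    refine h1.trans ?_
    exact mul_le_mul hpow hlogX (by positivity) (by positivity)
  have hle : n + 1 ≤ (s + 1) ^ (s ^ j) := by
    have h1 : ((n : ℝ) + 1) ≤ ((s : ℝ) + 1) ^ (s ^ j) := by
      rw [← Real.log_le_log_iff (by linarith) (by positivity), Real.log_pow]
      push_cast
      exact hkey
    exact_mod_cast h1
  have hf : f (2 * j + 1) n ≤ s + 2 * j * s :=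
    h j s s 1 n hsone hsone (Or.inr rfl) (by omega)
  have hfR : (f (2 * j + 1) n : ℝ) ≤ s + 2 * j * s := by exact_mod_cast hf
  rw [Real.norm_of_nonneg (by positivity), Real.norm_of_nonneg (by linarith)]
  have h8 : (s : ℝ) ≤ (4 * j + 1) * X := by nlinarith
  calc (f (2 * j + 1) n : ℝ) ≤ (2 * j + 1) * s := by linarith
    _ ≤ (2 * j + 1) * ((4 * j + 1) * X) := mul_le_mul_of_nonneg_left h8 (by positivity)
    _ = (2 * j + 1) * (4 * j + 1) * X := by ring

end Pool.Agent.W184.LIP.AUBO
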