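import Pool.Agent.W184.LIP.Defs

/-!
# LP-CONV: from positions to graphs on `Fin m`
-/

namespace Pool.Agent.W184.LIP.CONV

open SimpleGraph Pool.Agent.W184.LIP

theorem pf (hT : S_TREE) : S_CONV := by
  intro m k t A hm hA
  obtain ⟨ham, ind, C, σ, hsymm, hsub, hinj, hel⟩ := hA
  set e : Fin m → ℕ := fun x => (x : ℕ) + 1 with he
  have h1 : ∀ x : Fin m, 1 ≤ e x := fun x => Nat.le_add_left 1 _
  have h2 : ∀ x : Fin m, e x ≤ m := fun x => x.2
  have hei : Function.Injective e := by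
    intro x y hxy
    apply Fin.ext
    simpa [he] using hxy
  have hG : ∀ x y, (A.comap e).Adj x y ↔ A.Adj (e x) (e y) := fun x y => Iff.rfl
  refine ⟨A.comap e, ?_, ?_, ?_⟩
  · refine hT m k (A.comap e) (fun x y => C (e x) (e y)) (fun x => σ (e x)) hm ?_ ?_ ?_ ?_ ?_
    · intro x y h
      exact hsymm _ _ h
    · intro x y h
      exact hsub _ _ (h1 x) (h2 x) (h1 y) (h2 y) h
    · intro x y h
      exact hei (hinj _ _ (h1 x) (h2 x) (h1 y) (h2 y) h)
    · intro c S hS
      have := (hel (e c) (h1 c) (h2 c)).1 (S.map ⟨e, hei⟩) (by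
        intro v hv
        rw [Finset.mem_map] at hv
        obtain ⟨w, hw, rfl⟩ := hv
        exact ⟨h1 w, h2 w, (hS w hw).1, (hS w hw).2⟩)
      simpa using this
    · intro c v w hvw h3 h4 h5 h6
      exact (hel (e c) (h1 c) (h2 c)).2 _ _ (h1 v) (h2 v) (h1 w) (h2 w)
        (fun h => hvw (hei h)) h3 h4 h5 h6
  · refine ⟨⟨⟨id, ?_⟩, Function.injective_id⟩⟩
    intro x y hxy
    rw [pathGraph_adj] at hxy
    change A.Adj (e x) (e y)
    rcases hxy with h | h
    · have h7 : e y = e x + 1 := by simp only [he]; omega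
      rw [h7]
      exact ham _ (h1 x) (by rw [← h7]; exact h2 y)
    · have h7 : e x = e y + 1 := by simp only [he]; omega
      rw [h7]
      exact (ham _ (h1 y) (by rw [← h7]; exact h2 x)).symm
  · rintro q ⟨φ⟩
    refine ind q (fun a => if h : a < q then e (φ ⟨a, h⟩) else 0) ?_ ?_ ?_
    · intro a ha
      simp only [ha, dif_pos]
      exact ⟨h1 _, h2 _⟩
    · intro a b ha hb hab
      simp only [ha, hb, dif_pos] at hab
      have := φ.injective (hei hab)
      simpa using this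
    · intro a b ha hb
      simp only [ha, hb, dif_pos]
      have h8 : A.Adj (e (φ ⟨a, ha⟩)) (e (φ ⟨b, hb⟩)) ↔ (pathGraph q).Adj ⟨a, ha⟩ ⟨b, hb⟩ :=
        φ.map_rel_iff
      rw [h8, pathGraph_adj]

end Pool.Agent.W184.LIP.CONV
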