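import Pool.Agent.W184.LIP.Defs

namespace Pool.Agent.W184.LIP.COUNTB

open Pool.Agent.W184.LIP

def CL (n : ℕ) (σ : ℕ → ℕ) (P : ℕ → ℕ → Prop) (q u r : ℕ) : Prop :=
  ∃ L R : ℕ → ℕ, (∀ x, x < q → Node n σ (L x) (R x) ∧ 1 ≤ L x ∧ P (L x) (R x)) ∧
    (∀ x, x + 1 < q → L x < L (x + 1) ∧ R (x + 1) ≤ R x) ∧ (∀ x, x < q → L x < u ∧ r ≤ R x)

def CR (n : ℕ) (σ : ℕ → ℕ) (P : ℕ → ℕ → Prop) (q l v : ℕ) : Prop :=
  ∃ L R : ℕ → ℕ, (∀ x, x < q → Node n σ (L x) (R x) ∧ R x ≤ n ∧ P (L x) (R x)) ∧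
    (∀ x, x + 1 < q → L x ≤ L (x + 1) ∧ R (x + 1) < R x) ∧ (∀ x, x < q → L x ≤ l ∧ v ≤ R x)

variable {n : ℕ} {σ : ℕ → ℕ} {P : ℕ → ℕ → Prop}

theorem CL.mono {q u r u' r' : ℕ} (h : CL n σ P q u r) (hu : u ≤ u') (hr : r' ≤ r) :
    CL n σ P q u' r' := by
  obtain ⟨L, R, h1, h2, h3⟩ := h
  exact ⟨L, R, h1, h2, fun x hx => ⟨(h3 x hx).1.trans_le hu, hr.trans (h3 x hx).2⟩⟩

theorem CR.mono {q l v l' v' : ℕ} (h : CR n σ P q l v) (hl : l ≤ l') (hv : v' ≤ v) :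
    CR n σ P q l' v' := by
  obtain ⟨L, R, h1, h2, h3⟩ := h
  exact ⟨L, R, h1, h2, fun x hx => ⟨(h3 x hx).1.trans hl, hv.trans (h3 x hx).2⟩⟩

theorem CL.len {q u r m : ℕ} (h : CL n σ P q u r) (hm : ChainL n σ P m) : q ≤ m := by
  obtain ⟨L, R, h1, h2, h3⟩ := h
  exact hm q L R h1 h2

theorem CR.len {q l v m : ℕ} (h : CR n σ P q l v) (hm : ChainR n σ P m) : q ≤ m := by
  obtain ⟨L, R, h1, h2, h3⟩ := h
  exact hm q L R h1 h2

theorem CL.zero (u r : ℕ) : CL n σ P 0 u r :=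
  ⟨fun _ => 0, fun _ => 0, fun x hx => absurd hx (by omega), fun x hx => absurd hx (by omega),
    fun x hx => absurd hx (by omega)⟩

theorem CR.zero (l v : ℕ) : CR n σ P 0 l v :=
  ⟨fun _ => 0, fun _ => 0, fun x hx => absurd hx (by omega), fun x hx => absurd hx (by omega),
    fun x hx => absurd hx (by omega)⟩

theorem CL.ext {q l r : ℕ} (h : CL n σ P q l r) (hN : Node n σ l r) (hl : 1 ≤ l) (hP : P l r) :
    CL n σ P (q + 1) (l + 1) r := by
  obtain ⟨L, R, h1, h2, h3⟩ := h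
  refine ⟨fun x => if x < q then L x else l, fun x => if x < q then R x else r, ?_, ?_, ?_⟩
  · intro x hx
    by_cases hq : x < q
    · simpa [hq] using h1 x hq
    · simpa [hq] using ⟨hN, hl, hP⟩
  · intro x hx
    have hq : x < q := by omega
    by_cases hq1 : x + 1 < q
    · simpa [hq, hq1] using h2 x hq1
    · simpa [hq, hq1] using h3 x hq
  · intro x hx
    by_cases hq : x < q
    · have := h3 x hq
      simp only [hq, if_true]
      omega
    · simp [hq]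

theorem CR.ext {q l r : ℕ} (h : CR n σ P q l (r + 1)) (hN : Node n σ l r) (hr : r ≤ n)
    (hP : P l r) : CR n σ P (q + 1) l r := by
  obtain ⟨L, R, h1, h2, h3⟩ := h
  refine ⟨fun x => if x < q then L x else l, fun x => if x < q then R x else r, ?_, ?_, ?_⟩
  · intro x hx
    by_cases hq : x < q
    · simpa [hq] using h1 x hq
    · simpa [hq] using ⟨hN, hr, hP⟩
  · intro x hx
    have hq : x < q := by omega
    by_cases hq1 : x + 1 < q
    · simpa [hq, hq1] using h2 x hq1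
    · have := h3 x hq
      simp only [hq, hq1, if_true, if_false]
      omega
  · intro x hx
    by_cases hq : x < q
    · have := h3 x hq
      simp only [hq, if_true]
      omega
    · simp [hq]

theorem exists_top (l r : ℕ) (h : l + 1 < r) : ∃ c, IsTop σ l r c := by
  obtain ⟨c, hc, hc2⟩ := Finset.exists_max_image (Finset.Ioo l r) σ
    ⟨l + 1, Finset.mem_Ioo.2 ⟨by omega, h⟩⟩
  rw [Finset.mem_Ioo] at hc
  exact ⟨c, hc.1, hc.2, fun x h1 h2 => hc2 x (Finset.mem_Ioo.2 ⟨h1, h2⟩)⟩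

section main

variable (hinj : ∀ x y, 1 ≤ x → x ≤ n → 1 ≤ y → y ≤ n → σ x = σ y → x = y)

include hinj

theorem childL {l r c : ℕ} (hN : Node n σ l r) (hc : IsTop σ l r c) (h : l + 1 < c) :
    Node n σ l c := by
  obtain ⟨h1, h2, h3, h4⟩ := hN
  obtain ⟨c1, c2, c3⟩ := hc
  refine ⟨h, by omega, fun hl x a b => h3 hl x a (by omega), fun _ x a b => ?_⟩
  refine lt_of_le_of_ne (c3 x a (by omega)) fun he => ?_
  have := hinj x c (by omega) (by omega) (by omega) (by omega) he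
  omega

theorem childR {l r c : ℕ} (hN : Node n σ l r) (hc : IsTop σ l r c) (h : c + 1 < r) :
    Node n σ c r := by
  obtain ⟨h1, h2, h3, h4⟩ := hN
  obtain ⟨c1, c2, c3⟩ := hc
  refine ⟨h, by omega, fun _ x a b => ?_, fun hr x a b => h4 hr x (by omega) b⟩
  refine lt_of_le_of_ne (c3 x (by omega) b) fun he => ?_
  have := hinj x c (by omega) (by omega) (by omega) (by omega) he
  omega

variable {a b D : ℕ} {PL PR QL QR : ℕ → ℕ → Prop}
  (hT : ∀ l r, Node n σ l r → PL l r ∨ PR l r ∨ (QL l r ∧ QR l r))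
  (hPL : ChainL n σ PL a) (hPR : ChainR n σ PR a) (hQL : ChainL n σ QL b)
  (hQR : ChainR n σ QR b) (hDL : ChainL n σ (fun _ _ => True) D)
  (hDR : ChainR n σ (fun _ _ => True) D)

def C0 (n : ℕ) (σ : ℕ → ℕ) (a b D : ℕ) (PL PR QL QR : ℕ → ℕ → Prop) (p e : ℕ) : Prop :=
  ∀ l r q1 q2 q3 q4, Node n σ l r → 1 ≤ l → r ≤ n → 2 * a ≤ q1 + q2 + p → 2 * b ≤ q3 + q4 + e →
    CL n σ PL q1 l r → CR n σ PR q2 l (r + 1) → CL n σ QL q3 (l + 1) r → CR n σ QR q4 l r →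
    r - l - 1 ≤ (11 * (D + 1)) ^ p * 4 ^ e

def C2 (n : ℕ) (σ : ℕ → ℕ) (a b D : ℕ) (PL PR QL QR : ℕ → ℕ → Prop) (p e : ℕ) : Prop :=
  ∀ l r q1 q2 q3 q4, Node n σ l r → 2 * a ≤ q1 + q2 + p → 2 * b ≤ q3 + q4 + e →
    CL n σ PL q1 (l + 1) r → CR n σ PR q2 l r → CL n σ QL q3 (l + 1) r → CR n σ QR q4 l r →
    r - l - 1 ≤ 5 * (D + 1) * ((11 * (D + 1)) ^ p * 4 ^ e)

omit hinj in
include hT hPL hPR hQL hQR in
theorem red {p e : ℕ} (ih2 : ∀ p', p' + 1 = p → C2 n σ a b D PL PR QL QR p' e)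
    (ih0 : ∀ e', e' + 1 = e → C0 n σ a b D PL PR QL QR p e')
    {l r q1 q2 q3 q4 : ℕ} (hN : Node n σ l r) (hl : 1 ≤ l) (hr : r ≤ n)
    (hp : 2 * a ≤ q1 + q2 + p) (he : 2 * b ≤ q3 + q4 + e)
    (h1 : CL n σ PL q1 l r) (h2 : CR n σ PR q2 l (r + 1)) (h3 : CL n σ QL q3 (l + 1) r)
    (h4 : CR n σ QR q4 l r) (h5 : CL n σ QL q3 l r ∨ CR n σ QR q4 l (r + 1)) :
    2 * (r - l - 1) + 1 ≤ (11 * (D + 1)) ^ p * 4 ^ e := by
  have b1 := h1.len hPL
  have b2 := h2.len hPR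
  have b3 := h3.len hQL
  have b4 := h4.len hQR
  rcases hT l r hN with h | h | ⟨h, h'⟩
  · have e1 := h1.ext hN hl h
    have b5 := e1.len hPL
    obtain ⟨p', rfl⟩ : ∃ p', p = p' + 1 := ⟨p - 1, by omega⟩
    have := ih2 p' rfl l r (q1 + 1) q2 q3 q4 hN (by omega) he e1 (h2.mono le_rfl (by omega)) h3 h4
    have hX : 1 ≤ (11 * (D + 1)) ^ p' * 4 ^ e := Nat.one_le_iff_ne_zero.2 (by positivity)
    rw [pow_succ]
    nlinarith
  · have e1 := h2.ext hN hr h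
    have b5 := e1.len hPR
    obtain ⟨p', rfl⟩ : ∃ p', p = p' + 1 := ⟨p - 1, by omega⟩
    have := ih2 p' rfl l r q1 (q2 + 1) q3 q4 hN (by omega) he (h1.mono (by omega) le_rfl) e1 h3 h4
    have hX : 1 ≤ (11 * (D + 1)) ^ p' * 4 ^ e := Nat.one_le_iff_ne_zero.2 (by positivity)
    rw [pow_succ]
    nlinarith
  · rcases h5 with h5 | h5
    · have e1 := h5.ext hN hl h
      have b5 := e1.len hQL
      obtain ⟨e', rfl⟩ : ∃ e', e = e' + 1 := ⟨e - 1, by omega⟩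
      have := ih0 e' rfl l r q1 q2 (q3 + 1) q4 hN hl hr hp (by omega) h1 h2 e1 h4
      have hX : 1 ≤ (11 * (D + 1)) ^ p * 4 ^ e' := Nat.one_le_iff_ne_zero.2 (by positivity)
      rw [pow_succ]
      nlinarith
    · have e1 := h5.ext hN hr h'
      have b5 := e1.len hQR
      obtain ⟨e', rfl⟩ : ∃ e', e = e' + 1 := ⟨e - 1, by omega⟩
      have := ih0 e' rfl l r q1 q2 q3 (q4 + 1) hN hl hr hp (by omega) h1 h2 h3 e1
      have hX : 1 ≤ (11 * (D + 1)) ^ p * 4 ^ e' := Nat.one_le_iff_ne_zero.2 (by positivity)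
      rw [pow_succ]
      nlinarith

include hT hPL hPR hQL hQR in
theorem stepC0 {p e : ℕ} (ih2 : ∀ p', p' + 1 = p → C2 n σ a b D PL PR QL QR p' e)
    (ih0 : ∀ e', e' + 1 = e → C0 n σ a b D PL PR QL QR p e') :
    C0 n σ a b D PL PR QL QR p e := by
  intro l r q1 q2 q3 q4 hN hl hr hp he h1 h2 h3 h4
  obtain ⟨c, hc⟩ := exists_top (σ := σ) l r hN.1
  obtain ⟨c1, c2, c3⟩ := id hc
  have hW : 1 ≤ (11 * (D + 1)) ^ p * 4 ^ e := Nat.one_le_iff_ne_zero.2 (by positivity)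
  have hs1 : 2 * (c - l - 1) + 1 ≤ (11 * (D + 1)) ^ p * 4 ^ e := by
    by_cases hlc : l + 1 < c
    · exact red hT hPL hPR hQL hQR ih2 ih0 (childL hinj hN hc hlc) hl (by omega) hp he
        (h1.mono le_rfl c2.le) (h2.mono le_rfl (by omega)) (h3.mono le_rfl c2.le)
        (h4.mono le_rfl c2.le) (Or.inr (h4.mono le_rfl (by omega)))
    · have : c - l - 1 = 0 := by omega
      omega
  have hs2 : 2 * (r - c - 1) + 1 ≤ (11 * (D + 1)) ^ p * 4 ^ e := by
    by_cases hlc : c + 1 < r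
    · exact red hT hPL hPR hQL hQR ih2 ih0 (childR hinj hN hc hlc) (by omega) hr hp he
        (h1.mono c1.le le_rfl) (h2.mono c1.le le_rfl) (h3.mono (by omega) le_rfl)
        (h4.mono c1.le le_rfl) (Or.inl (h3.mono (by omega) le_rfl))
    · have : r - c - 1 = 0 := by omega
      omega
  omega

include hT hPL hPR hQL hQR hDR in
theorem stepC1L {p e : ℕ} (ih2 : ∀ p', p' + 1 = p → C2 n σ a b D PL PR QL QR p' e)
    (ih0 : ∀ e', e' + 1 = e → C0 n σ a b D PL PR QL QR p e') :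
    ∀ d l r q1 q2 q3 q4 z, Node n σ l r → r ≤ n → 2 * a ≤ q1 + q2 + p → 2 * b ≤ q3 + q4 + e →
    CL n σ PL q1 (l + 1) r → CR n σ PR q2 l (r + 1) → CL n σ QL q3 (l + 1) r → CR n σ QR q4 l r →
    CR n σ (fun _ _ => True) z l (r + 1) → D ≤ z + d →
    r - l - 1 ≤ d * ((11 * (D + 1)) ^ p * 4 ^ e) := by
  intro d
  induction d with
  | zero =>
    intro l r q1 q2 q3 q4 z hN hr hp he h1 h2 h3 h4 h5 hd
    have := (h5.ext hN hr trivial).len hDR
    omega
  | succ d ihd =>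
    intro l r q1 q2 q3 q4 z hN hr hp he h1 h2 h3 h4 h5 hd
    obtain ⟨c, hc⟩ := exists_top (σ := σ) l r hN.1
    obtain ⟨c1, c2, c3⟩ := id hc
    have hW : 1 ≤ (11 * (D + 1)) ^ p * 4 ^ e := Nat.one_le_iff_ne_zero.2 (by positivity)
    have h6 := h5.ext hN hr trivial
    have hs1 : c - l - 1 ≤ d * ((11 * (D + 1)) ^ p * 4 ^ e) := by
      by_cases hlc : l + 1 < c
      · exact ihd l c q1 q2 q3 q4 (z + 1) (childL hinj hN hc hlc) (by omega) hp he
          (h1.mono le_rfl c2.le) (h2.mono le_rfl (by omega)) (h3.mono le_rfl c2.le)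
          (h4.mono le_rfl c2.le) (h6.mono le_rfl (by omega)) (by omega)
      · have : c - l - 1 = 0 := by omega
        omega
    have hs2 : 2 * (r - c - 1) + 1 ≤ (11 * (D + 1)) ^ p * 4 ^ e := by
      by_cases hlc : c + 1 < r
      · exact red hT hPL hPR hQL hQR ih2 ih0 (childR hinj hN hc hlc) (by omega) hr hp he
          (h1.mono (by omega) le_rfl) (h2.mono c1.le le_rfl) (h3.mono (by omega) le_rfl)
          (h4.mono c1.le le_rfl) (Or.inl (h3.mono (by omega) le_rfl))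
      · have : r - c - 1 = 0 := by omega
        omega
    rw [Nat.succ_mul]
    omega

include hT hPL hPR hQL hQR hDL in
theorem stepC1R {p e : ℕ} (ih2 : ∀ p', p' + 1 = p → C2 n σ a b D PL PR QL QR p' e)
    (ih0 : ∀ e', e' + 1 = e → C0 n σ a b D PL PR QL QR p e') :
    ∀ d l r q1 q2 q3 q4 z, Node n σ l r → 1 ≤ l → 2 * a ≤ q1 + q2 + p → 2 * b ≤ q3 + q4 + e →
    CL n σ PL q1 l r → CR n σ PR q2 l r → CL n σ QL q3 (l + 1) r → CR n σ QR q4 l r →
    CL n σ (fun _ _ => True) z l r → D ≤ z + d →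
    r - l - 1 ≤ d * ((11 * (D + 1)) ^ p * 4 ^ e) := by
  intro d
  induction d with
  | zero =>
    intro l r q1 q2 q3 q4 z hN hl hp he h1 h2 h3 h4 h5 hd
    have := (h5.ext hN hl trivial).len hDL
    omega
  | succ d ihd =>
    intro l r q1 q2 q3 q4 z hN hl hp he h1 h2 h3 h4 h5 hd
    obtain ⟨c, hc⟩ := exists_top (σ := σ) l r hN.1
    obtain ⟨c1, c2, c3⟩ := id hc
    have hW : 1 ≤ (11 * (D + 1)) ^ p * 4 ^ e := Nat.one_le_iff_ne_zero.2 (by positivity)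
    have hrn := hN.2.1
    have h6 := h5.ext hN hl trivial
    have hs1 : r - c - 1 ≤ d * ((11 * (D + 1)) ^ p * 4 ^ e) := by
      by_cases hlc : c + 1 < r
      · exact ihd c r q1 q2 q3 q4 (z + 1) (childR hinj hN hc hlc) (by omega) hp he
          (h1.mono (by omega) le_rfl) (h2.mono c1.le le_rfl) (h3.mono (by omega) le_rfl)
          (h4.mono c1.le le_rfl) (h6.mono (by omega) le_rfl) (by omega)
      · have : r - c - 1 = 0 := by omega
        omega
    have hs2 : 2 * (c - l - 1) + 1 ≤ (11 * (D + 1)) ^ p * 4 ^ e := by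
      by_cases hlc : l + 1 < c
      · exact red hT hPL hPR hQL hQR ih2 ih0 (childL hinj hN hc hlc) hl (by omega) hp he
          (h1.mono le_rfl c2.le) (h2.mono le_rfl (by omega)) (h3.mono le_rfl c2.le)
          (h4.mono le_rfl c2.le) (Or.inr (h4.mono le_rfl (by omega)))
      · have : c - l - 1 = 0 := by omega
        omega
    rw [Nat.succ_mul]
    omega

include hT hPL hPR hQL hQR hDL hDR in
theorem stepC2 {p e : ℕ} (ih2 : ∀ p', p' + 1 = p → C2 n σ a b D PL PR QL QR p' e)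
    (ih0 : ∀ e', e' + 1 = e → C0 n σ a b D PL PR QL QR p e') :
    C2 n σ a b D PL PR QL QR p e := by
  intro l r q1 q2 q3 q4 hN hp he h1 h2 h3 h4
  obtain ⟨c, hc⟩ := exists_top (σ := σ) l r hN.1
  obtain ⟨c1, c2, c3⟩ := id hc
  have hrn := hN.2.1
  have hW : 1 ≤ (11 * (D + 1)) ^ p * 4 ^ e := Nat.one_le_iff_ne_zero.2 (by positivity)
  have hs1 : c - l - 1 ≤ D * ((11 * (D + 1)) ^ p * 4 ^ e) := by
    by_cases hlc : l + 1 < c
    · exact stepC1L hinj hT hPL hPR hQL hQR hDR ih2 ih0 D l c q1 q2 q3 q4 0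
        (childL hinj hN hc hlc) (by omega) hp he (h1.mono le_rfl c2.le) (h2.mono le_rfl (by omega))
        (h3.mono le_rfl c2.le) (h4.mono le_rfl c2.le) (CR.zero _ _) (by omega)
    · have : c - l - 1 = 0 := by omega
      omega
  have hs2 : r - c - 1 ≤ D * ((11 * (D + 1)) ^ p * 4 ^ e) := by
    by_cases hlc : c + 1 < r
    · exact stepC1R hinj hT hPL hPR hQL hQR hDL ih2 ih0 D c r q1 q2 q3 q4 0
        (childR hinj hN hc hlc) (by omega) hp he (h1.mono (by omega) le_rfl) (h2.mono c1.le le_rfl)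
        (h3.mono (by omega) le_rfl) (h4.mono c1.le le_rfl) (CL.zero _ _) (by omega)
    · have : r - c - 1 = 0 := by omega
      omega
  have : r - l - 1 ≤ 1 + 2 * (D * ((11 * (D + 1)) ^ p * 4 ^ e)) := by omega
  nlinarith

include hT hPL hPR hQL hQR hDL hDR in
theorem all : ∀ N p e, p + e = N →
    C0 n σ a b D PL PR QL QR p e ∧ C2 n σ a b D PL PR QL QR p e := by
  intro N
  induction N using Nat.strong_induction_on with
  | _ N ih =>
    intro p e hpe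
    have ih2 : ∀ p', p' + 1 = p → C2 n σ a b D PL PR QL QR p' e :=
      fun p' h => (ih (p' + e) (by omega) p' e rfl).2
    have ih0 : ∀ e', e' + 1 = e → C0 n σ a b D PL PR QL QR p e' :=
      fun e' h => (ih (p + e') (by omega) p e' rfl).1
    exact ⟨stepC0 hinj hT hPL hPR hQL hQR ih2 ih0,
      stepC2 hinj hT hPL hPR hQL hQR hDL hDR ih2 ih0⟩

end main

theorem pf : S_COUNT := by
  intro n a b D σ PL PR QL QR hinj hT hPL hPR hQL hQR hDL hDR
  rcases Nat.eq_zero_or_pos n with rfl | hn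
  · exact Nat.zero_le _
  have h := (all hinj hT hPL hPR hQL hQR hDL hDR (2 * a + 2 * b) (2 * a) (2 * b) rfl).2 0 (n + 1)
    0 0 0 0 ⟨by omega, le_rfl, fun h => absurd h (by omega), fun h => absurd h (by omega)⟩
    (by omega) (by omega) (CL.zero _ _) (CR.zero _ _) (CL.zero _ _) (CR.zero _ _)
  have hX : 1 ≤ (11 * (D + 1)) ^ (2 * a) * 4 ^ (2 * b) :=
    Nat.one_le_iff_ne_zero.2 (by positivity)
  rw [pow_succ]
  have h2 : n + 1 - 0 - 1 = n := by omega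
  rw [h2] at h
  nlinarith

end Pool.Agent.W184.LIP.COUNTB
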