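import Mathlib

/-!
# Long induced paths in graphs of bounded treewidth (MP_6d7b3f_co): definitions and interface
-/

namespace Pool.Agent.W184.LIP

open SimpleGraph

/-- `G` has a tree decomposition all of whose bags have at most `k + 1` vertices. -/
def HasTw {V : Type} (G : SimpleGraph V) (k : ℕ) : Prop :=
  ∃ (n : ℕ) (T : SimpleGraph (Fin n)) (B : Fin n → Finset V),
    T.IsTree ∧
    (∀ v, ∃ t, v ∈ B t) ∧
    (∀ u v, G.Adj u v → ∃ t, u ∈ B t ∧ v ∈ B t) ∧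
    (∀ v, (T.induce {t | v ∈ B t}).Connected) ∧
    (∀ t, (B t).card ≤ k + 1)

/-- The numbers `m` such that every finite graph of treewidth at most `k` which contains the path
on `n` vertices as a subgraph contains the path on `m` vertices as an induced subgraph. -/
def Forced (k n : ℕ) : Set ℕ :=
  {m | ∀ (N : ℕ) (G : SimpleGraph (Fin N)), HasTw G k →
    (pathGraph n).IsContained G → (pathGraph m).IsIndContained G}

/-- `f(W_k, n)`. -/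
noncomputable def f (k n : ℕ) : ℕ := sSup (Forced k n)

/-! ## Lower bound -/

/-- `w` lies above `c` and is reached from `c` by a walk all of whose other vertices are not
above `c`. -/
def Reach {V : Type} (G : SimpleGraph V) (σ : V → ℕ) (c w : V) : Prop :=
  σ c < σ w ∧ ∃ x, Relation.ReflTransGen (fun x y => G.Adj x y ∧ σ y ≤ σ c) c x ∧ G.Adj x w

/-- ELIM: a tree decomposition gives an elimination order. -/
def S_ELIM : Prop :=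
  ∀ (V : Type) [Fintype V] [DecidableEq V] (G : SimpleGraph V) (k : ℕ), HasTw G k →
    ∃ σ : V → ℕ, Function.Injective σ ∧
      ∀ c : V, ∀ S : Finset V, (∀ w ∈ S, Reach G σ c w) → S.card ≤ k

/-- Numerical version: the path is `1, ..., n`. -/
structure Str (n k s : ℕ) (A : SimpleGraph ℕ) (σ : ℕ → ℕ) : Prop where
  dom : ∀ x y, A.Adj x y → 1 ≤ x ∧ x ≤ n
  path : ∀ i, 1 ≤ i → i + 1 ≤ n → A.Adj i (i + 1)
  inj : ∀ x y, 1 ≤ x → x ≤ n → 1 ≤ y → y ≤ n → σ x = σ y → x = y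
  sep : ∀ c, 1 ≤ c → c ≤ n → ∀ S : Finset ℕ, (∀ w ∈ S, Reach A σ c w) → S.card ≤ k
  ind : ∀ m, (pathGraph m).IsIndContained A → m ≤ s

/-- The nonempty open interval `(l, r)` is a node: each real end (`1 ≤ l`, `r ≤ n`) is above
everything inside. -/
def Node (n : ℕ) (σ : ℕ → ℕ) (l r : ℕ) : Prop :=
  l + 1 < r ∧ r ≤ n + 1 ∧ (1 ≤ l → ∀ x, l < x → x < r → σ x < σ l) ∧
    (r ≤ n → ∀ x, l < x → x < r → σ x < σ r)

/-- `c` is the highest position in `(l, r)`. -/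
def IsTop (σ : ℕ → ℕ) (l r c : ℕ) : Prop := l < c ∧ c < r ∧ ∀ x, l < x → x < r → σ x ≤ σ c

/-- At most `j` separator positions on the left of the node. -/
def SmallL (A : SimpleGraph ℕ) (σ : ℕ → ℕ) (j l r : ℕ) : Prop :=
  ∀ c, IsTop σ l r c → ∀ S : Finset ℕ, (∀ w ∈ S, w ≤ l ∧ Reach A σ c w) → S.card ≤ j

/-- At most `j` separator positions on the right of the node. -/
def SmallR (A : SimpleGraph ℕ) (σ : ℕ → ℕ) (j l r : ℕ) : Prop :=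
  ∀ c, IsTop σ l r c → ∀ S : Finset ℕ, (∀ w ∈ S, r ≤ w ∧ Reach A σ c w) → S.card ≤ j

/-- Every nested sequence of `P`-nodes with real, strictly increasing left ends has at most `m`
members. -/
def ChainL (n : ℕ) (σ : ℕ → ℕ) (P : ℕ → ℕ → Prop) (m : ℕ) : Prop :=
  ∀ (q : ℕ) (l r : ℕ → ℕ), (∀ x, x < q → Node n σ (l x) (r x) ∧ 1 ≤ l x ∧ P (l x) (r x)) →
    (∀ x, x + 1 < q → l x < l (x + 1) ∧ r (x + 1) ≤ r x) → q ≤ m

/-- Every nested sequence of `P`-nodes with real, strictly decreasing right ends has at most `m`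
members. -/
def ChainR (n : ℕ) (σ : ℕ → ℕ) (P : ℕ → ℕ → Prop) (m : ℕ) : Prop :=
  ∀ (q : ℕ) (l r : ℕ → ℕ), (∀ x, x < q → Node n σ (l x) (r x) ∧ r x ≤ n ∧ P (l x) (r x)) →
    (∀ x, x + 1 < q → l x ≤ l (x + 1) ∧ r (x + 1) < r x) → q ≤ m

/-- SIDEL -/
def S_SIDEL : Prop :=
  ∀ (n k s j : ℕ) (A : SimpleGraph ℕ) (σ : ℕ → ℕ), 1 ≤ s → Str n k s A σ →
    ChainL n σ (SmallL A σ j) ((2 * s) ^ j)

/-- SIDER -/
def S_SIDER : Prop :=
  ∀ (n k s j : ℕ) (A : SimpleGraph ℕ) (σ : ℕ → ℕ), 1 ≤ s → Str n k s A σ →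
    ChainR n σ (SmallR A σ j) ((2 * s) ^ j)

/-- COUNT: a purely combinatorial recursion. -/
def S_COUNT : Prop :=
  ∀ (n a b D : ℕ) (σ : ℕ → ℕ) (PL PR QL QR : ℕ → ℕ → Prop),
    (∀ x y, 1 ≤ x → x ≤ n → 1 ≤ y → y ≤ n → σ x = σ y → x = y) →
    (∀ l r, Node n σ l r → PL l r ∨ PR l r ∨ (QL l r ∧ QR l r)) →
    ChainL n σ PL a → ChainR n σ PR a → ChainL n σ QL b → ChainR n σ QR b →
    ChainL n σ (fun _ _ => True) D → ChainR n σ (fun _ _ => True) D →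
    n ≤ (11 * (D + 1)) ^ (2 * a + 1) * 4 ^ (2 * b)

/-- NLB -/
def S_NLB : Prop :=
  ∀ (n k s i j : ℕ) (A : SimpleGraph ℕ) (σ : ℕ → ℕ), 1 ≤ s → i ≤ j → k ≤ i + j + 1 →
    Str n k s A σ →
    n ≤ (11 * ((2 * s) ^ k + 1)) ^ (2 * (2 * s) ^ i + 1) * 4 ^ (2 * (2 * s) ^ j)

/-- LB -/
def S_LB : Prop :=
  ∀ (k i j s n N : ℕ) (G : SimpleGraph (Fin N)), 1 ≤ s → i ≤ j → k ≤ i + j + 1 →
    HasTw G k → (pathGraph n).IsContained G →
    (∀ m, (pathGraph m).IsIndContained G → m ≤ s) →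
    n ≤ (11 * ((2 * s) ^ k + 1)) ^ (2 * (2 * s) ^ i + 1) * 4 ^ (2 * (2 * s) ^ j)

/-! ## Upper bound -/

/-- A graph on the positions `1, ..., m` with Hamiltonian path `1, ..., m`, with induced paths of
at most `t` vertices and with an elimination order of width at most `k`. -/
structure PG (m k t : ℕ) (A : SimpleGraph ℕ) : Prop where
  ham : ∀ i, 1 ≤ i → i + 1 ≤ m → A.Adj i (i + 1)
  ind : ∀ (L : ℕ) (p : ℕ → ℕ), (∀ a, a < L → 1 ≤ p a ∧ p a ≤ m) →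
    (∀ a b, a < L → b < L → p a = p b → a = b) →
    (∀ a b, a < L → b < L → (A.Adj (p a) (p b) ↔ (a + 1 = b ∨ b + 1 = a))) → L ≤ t
  elim : ∃ (C : ℕ → ℕ → Prop) (σ : ℕ → ℕ), (∀ x y, C x y → C y x) ∧
    (∀ x y, 1 ≤ x → x ≤ m → 1 ≤ y → y ≤ m → A.Adj x y → C x y) ∧
    (∀ x y, 1 ≤ x → x ≤ m → 1 ≤ y → y ≤ m → σ x = σ y → x = y) ∧
    (∀ c, 1 ≤ c → c ≤ m →
      (∀ S : Finset ℕ, (∀ v ∈ S, 1 ≤ v ∧ v ≤ m ∧ C c v ∧ σ c < σ v) → S.card ≤ k) ∧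
      (∀ v w, 1 ≤ v → v ≤ m → 1 ≤ w → w ≤ m → v ≠ w → C c v → C c w → σ c < σ v → σ c < σ w →
        C v w))

/-- the level of `x ≥ 1`: largest `e` with `N ^ e ∣ x` -/
noncomputable def lev (N x : ℕ) : ℕ := Nat.findGreatest (fun e => N ^ e ∣ x) x

/-- left end of the `N`-adic interval in which `x` is a break point -/
noncomputable def lo (N x : ℕ) : ℕ := x / N ^ (lev N x + 1) * N ^ (lev N x + 1)

/-- right end of the `N`-adic interval in which `x` is a break point -/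
noncomputable def hi (N x : ℕ) : ℕ := lo N x + N ^ (lev N x + 1)

/-- the last nonzero `N`-adic digit of `x` -/
noncomputable def dig (N x : ℕ) : ℕ := x / N ^ (lev N x) % N

/-- relation used for the substitution graph and its chordal completion -/
def SubR (N d : ℕ) (C : ℕ → ℕ → Prop) (x y : ℕ) : Prop :=
  x ≠ y ∧ (1 ≤ x ∧ x < N ^ d) ∧ (1 ≤ y ∧ y < N ^ d) ∧
    ((lev N x = lev N y ∧ lo N x = lo N y ∧ C (dig N x) (dig N y)) ∨
     (lev N x < lev N y ∧ (y = lo N x ∨ y = hi N x)) ∨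
     (lev N y < lev N x ∧ (x = lo N y ∨ x = hi N y)))

/-- the substitution graph -/
def SubG (N d : ℕ) (A : SimpleGraph ℕ) : SimpleGraph ℕ where
  Adj x y := SubR N d A.Adj x y
  symm := ⟨by
    rintro x y ⟨h1, h2, h3, h4⟩
    refine ⟨h1.symm, h3, h2, ?_⟩
    rcases h4 with ⟨h5, h6, h7⟩ | h5 | h5
    · exact Or.inl ⟨h5.symm, h6.symm, h7.symm⟩
    · exact Or.inr (Or.inr h5)
    · exact Or.inr (Or.inl h5)⟩
  loopless := ⟨fun x h => h.1 rfl⟩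

/-- The relation between two consecutive points `u < w` of some scale. -/
def Consec (N u w : ℕ) : Prop :=
  (lev N u = lev N w ∧ lo N u = lo N w ∧ dig N w = dig N u + 1) ∨
  (lev N u < lev N w ∧ w = hi N u) ∨ (lev N w < lev N u ∧ u = lo N w)

/-- FACTS about levels. -/
def S_FACTS : Prop :=
  ∀ (N d x : ℕ), 2 ≤ N → 1 ≤ x → x < N ^ d →
    (lo N x < x ∧ x < hi N x ∧ hi N x ≤ N ^ d) ∧
    (1 ≤ lo N x → lev N x < lev N (lo N x)) ∧
    lev N x < lev N (hi N x) ∧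
    (1 ≤ dig N x ∧ dig N x < N ∧ x = lo N x + dig N x * N ^ (lev N x)) ∧
    lev N x < d ∧
    (1 ≤ lo N x → Consec N (lo N x) (hi N x)) ∧
    Consec N x (x + 1)

/-- STEPI: Hamiltonian path and induced paths of the substitution graph. -/
def S_STEPI : Prop :=
  ∀ (m k t d : ℕ) (A : SimpleGraph ℕ), 1 ≤ m → 1 ≤ d → PG m k t A →
    (∀ i, 1 ≤ i → i + 1 ≤ (m + 1) ^ d - 1 → (SubG (m + 1) d A).Adj i (i + 1)) ∧
    (∀ (L : ℕ) (p : ℕ → ℕ), (∀ a, a < L → 1 ≤ p a ∧ p a ≤ (m + 1) ^ d - 1) →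
      (∀ a b, a < L → b < L → p a = p b → a = b) →
      (∀ a b, a < L → b < L → ((SubG (m + 1) d A).Adj (p a) (p b) ↔ (a + 1 = b ∨ b + 1 = a))) →
      L ≤ t + 2 * d)

/-- STEPE: elimination order of the substitution graph. -/
def S_STEPE : Prop :=
  ∀ (m k t d : ℕ) (A : SimpleGraph ℕ), 1 ≤ m → 1 ≤ d → PG m k t A →
    ∃ (C : ℕ → ℕ → Prop) (σ : ℕ → ℕ), (∀ x y, C x y → C y x) ∧
    (∀ x y, 1 ≤ x → x ≤ (m + 1) ^ d - 1 → 1 ≤ y → y ≤ (m + 1) ^ d - 1 →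
      (SubG (m + 1) d A).Adj x y → C x y) ∧
    (∀ x y, 1 ≤ x → x ≤ (m + 1) ^ d - 1 → 1 ≤ y → y ≤ (m + 1) ^ d - 1 → σ x = σ y → x = y) ∧
    (∀ c, 1 ≤ c → c ≤ (m + 1) ^ d - 1 →
      (∀ S : Finset ℕ, (∀ v ∈ S, 1 ≤ v ∧ v ≤ (m + 1) ^ d - 1 ∧ C c v ∧ σ c < σ v) →
        S.card ≤ k + 2) ∧
      (∀ v w, 1 ≤ v → v ≤ (m + 1) ^ d - 1 → 1 ≤ w → w ≤ (m + 1) ^ d - 1 → v ≠ w → C c v →
        C c w → σ c < σ v → σ c < σ w → C v w))

/-- STEP -/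
def S_STEP : Prop :=
  ∀ (m k t d : ℕ) (A : SimpleGraph ℕ), 1 ≤ m → 1 ≤ d → PG m k t A →
    ∃ A', PG ((m + 1) ^ d - 1) (k + 2) (t + 2 * d) A'

/-- TREE: an elimination order gives a tree decomposition. -/
def S_TREE : Prop :=
  ∀ (m k : ℕ) (G : SimpleGraph (Fin m)) (C : Fin m → Fin m → Prop) (σ : Fin m → ℕ), 1 ≤ m →
    (∀ x y, C x y → C y x) → (∀ x y, G.Adj x y → C x y) → Function.Injective σ →
    (∀ c, ∀ S : Finset (Fin m), (∀ v ∈ S, C c v ∧ σ c < σ v) → S.card ≤ k) →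
    (∀ c v w, v ≠ w → C c v → C c w → σ c < σ v → σ c < σ w → C v w) → HasTw G k

/-- CONV -/
def S_CONV : Prop :=
  ∀ (m k t : ℕ) (A : SimpleGraph ℕ), 1 ≤ m → PG m k t A →
    ∃ G : SimpleGraph (Fin m), HasTw G k ∧ (pathGraph m).IsContained G ∧
      ∀ q, (pathGraph q).IsIndContained G → q ≤ t

/-- UB -/
def S_UB : Prop :=
  ∀ (j s m e : ℕ), 1 ≤ s → 1 ≤ m → (m = 1 ∨ e = 1) →
    ∃ (N : ℕ) (G : SimpleGraph (Fin N)), HasTw G (2 * j + e) ∧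
      (pathGraph ((m + 1) ^ (s ^ j) - 1)).IsContained G ∧
      ∀ q, (pathGraph q).IsIndContained G → q ≤ m + 2 * j * s

/-- FLB -/
def S_FLB : Prop :=
  ∀ (k i j s n : ℕ), 1 ≤ s → i ≤ j → 1 ≤ k → k ≤ i + j + 1 →
    (11 * ((2 * s) ^ k + 1)) ^ (2 * (2 * s) ^ i + 1) * 4 ^ (2 * (2 * s) ^ j) < n →
    s + 1 ≤ f k n

/-- FUB -/
def S_FUB : Prop :=
  ∀ (j s m e n : ℕ), 1 ≤ s → 1 ≤ m → (m = 1 ∨ e = 1) → n ≤ (m + 1) ^ (s ^ j) - 1 →
    f (2 * j + e) n ≤ m + 2 * j * s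

/-! ## Asymptotics -/

open Filter Asymptotics

/-- ALB: the lower bounds. -/
def S_ALBE : Prop := ∀ j : ℕ, 1 ≤ j →
  (fun n : ℕ => Real.log n ^ ((1 : ℝ) / j)) =O[atTop] (fun n => (f (2 * j) n : ℝ))

def S_ALBO : Prop := ∀ j : ℕ, 1 ≤ j →
  (fun n : ℕ => (Real.log n / Real.log (Real.log n)) ^ ((1 : ℝ) / j)) =O[atTop]
    (fun n => (f (2 * j + 1) n : ℝ))

def S_AUBE : Prop := ∀ j : ℕ, 1 ≤ j →
  (fun n => (f (2 * j) n : ℝ)) =O[atTop] (fun n : ℕ => Real.log n ^ ((1 : ℝ) / j))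

def S_AUBO : Prop := ∀ j : ℕ, 1 ≤ j →
  (fun n => (f (2 * j + 1) n : ℝ)) =O[atTop]
    (fun n : ℕ => (Real.log n / Real.log (Real.log n)) ^ ((1 : ℝ) / j))

end Pool.Agent.W184.LIP
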