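import Mathlib
import Pool.Agent.W184.LIP.Defs

/-!
# A tree decomposition gives an elimination order
-/

set_option autoImplicit false

namespace Pool.Agent.W184.LIP.ELIM

open SimpleGraph

variable {n : ℕ} {T : SimpleGraph (Fin n)}

/-- `u` separates `t` from `r` -/
def Sep (T : SimpleGraph (Fin n)) (r u t : Fin n) : Prop := ∀ p : T.Walk t r, u ∈ p.support

theorem sep_step {r u t t' : Fin n} (h : Sep T r u t) (htu : t ≠ u) (ha : T.Adj t t') :
    Sep T r u t' := by
  intro p
  have h1 := h (Walk.cons ha p)
  rw [Walk.support_cons, List.mem_cons] at h1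
  exact h1.resolve_left (fun h => htu h.symm)

theorem sep_conn {A : Set (Fin n)} {r u : Fin n} (hu : u ∉ A) {a b : A}
    (q : (T.induce A).Walk a b) (h : Sep T r u a) : Sep T r u b := by
  induction q with
  | nil => exact h
  | @cons x y z hadj q ih => exact ih (sep_step h (fun e => hu (e ▸ x.2)) hadj)

theorem walk_in {A : Set (Fin n)} {a b : A} (q : (T.induce A).Walk a b) :
    ∃ p : T.Walk (a : Fin n) b, ∀ x ∈ p.support, x ∈ A := by
  induction q with
  | @nil x =>
    refine ⟨Walk.nil, fun y hy => ?_⟩
    rw [Walk.support_nil, List.mem_singleton] at hy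
    exact hy ▸ x.2
  | @cons x y z hadj q ih =>
    obtain ⟨p, hp⟩ := ih
    refine ⟨Walk.cons hadj p, fun w hw => ?_⟩
    rw [Walk.support_cons, List.mem_cons] at hw
    rcases hw with rfl | hw
    · exact x.2
    · exact hp w hw

theorem sep_dist (hT : T.Connected) {r u t : Fin n} (h : Sep T r u t) (htu : t ≠ u) :
    T.dist r u < T.dist r t := by
  obtain ⟨p, hp⟩ := hT.exists_walk_length_eq_dist t r
  have hu := h p
  have h1 : (p.takeUntil u hu).length + (p.dropUntil u hu).length = p.length := by
    rw [← Walk.length_append, Walk.take_spec]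
  have h2 : T.dist u r ≤ (p.dropUntil u hu).length := dist_le _
  have h3 : 0 < (p.takeUntil u hu).length := by
    rcases Nat.eq_zero_or_pos (p.takeUntil u hu).length with h0 | h0
    · exact absurd (Walk.eq_of_length_eq_zero h0) htu
    · exact h0
  rw [dist_comm (u := r) (v := u), dist_comm (u := r) (v := t)]
  omega

theorem sep_of_min (hT : T.IsTree) {A : Set (Fin n)} (hA : (T.induce A).Connected)
    {r u t : Fin n} (hu : u ∈ A) (hmin : ∀ s ∈ A, T.dist r u ≤ T.dist r s) (ht : t ∈ A) :
    Sep T r u t := by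
  intro p
  by_contra hup
  have hur : u ≠ r := fun h => hup (h ▸ p.end_mem_support)
  obtain ⟨s, hs⟩ := hT.connected.exists_walk_length_eq_dist u r
  obtain ⟨u1, hadj, s', hs'⟩ : ∃ (u1 : Fin n) (_ : T.Adj u u1) (s' : T.Walk u1 r),
      s'.length + 1 = T.dist u r := by
    cases s with
    | nil => exact absurd rfl hur
    | @cons _ v _ hadj s' => exact ⟨v, hadj, s', by rw [← hs, Walk.length_cons]⟩
  have h1 : T.dist u1 r ≤ s'.length := dist_le _
  have hu1 : u1 ∉ A := by
    intro h
    have h2 := hmin u1 h
    rw [dist_comm (u := r) (v := u), dist_comm (u := r) (v := u1)] at h2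
    omega
  obtain ⟨q0⟩ := hA.preconnected ⟨u, hu⟩ ⟨t, ht⟩
  obtain ⟨q, hq⟩ := walk_in q0
  have hbr := (isAcyclic_iff_forall_adj_isBridge.mp hT.isAcyclic) hadj
  rw [isBridge_iff_forall_walk_mem_edges] at hbr
  have h5 := hbr ((q.append p).append s'.reverse)
  rw [Walk.edges_append, Walk.edges_append, List.mem_append, List.mem_append] at h5
  rcases h5 with (h5 | h5) | h5
  · exact hu1 (hq _ (Walk.snd_mem_support_of_mem_edges _ h5))
  · exact hup (Walk.fst_mem_support_of_mem_edges _ h5)
  · have h6 := Walk.fst_mem_support_of_mem_edges _ h5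
    rw [Walk.support_reverse, List.mem_reverse] at h6
    have h7 : (s'.takeUntil u h6).length + (s'.dropUntil u h6).length = s'.length := by
      rw [← Walk.length_append, Walk.take_spec]
    have h8 : T.dist u r ≤ (s'.dropUntil u h6).length := dist_le _
    omega

theorem pf : S_ELIM := by
  classical
  intro V _ _ G k hTw
  obtain ⟨n, T, B, hT, hcov, hedge, hconn, hcard⟩ := hTw
  obtain ⟨r⟩ := hT.connected.nonempty
  have htop : ∀ v, ∃ t, v ∈ B t ∧ ∀ s, v ∈ B s → T.dist r t ≤ T.dist r s := by
    intro v
    obtain ⟨t0, ht0⟩ := hcov v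
    obtain ⟨t, ht, hm⟩ := Finset.exists_min_image (Finset.univ.filter (fun t => v ∈ B t))
      (fun t => T.dist r t) ⟨t0, by simp [ht0]⟩
    refine ⟨t, by simpa using ht, fun s hs => hm s (by simp [hs])⟩
  choose top htop1 htop2 using htop
  let e := Fintype.equivFin V
  let N := Fintype.card V
  let m : V → ℕ := fun v => T.dist r (top v)
  let M := ∑ v, m v
  have hmM : ∀ v, m v ≤ M := fun v => Finset.single_le_sum (fun _ _ => Nat.zero_le _) (Finset.mem_univ v)
  let σ : V → ℕ := fun v => (M - m v) * N + (e v : ℕ)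
  have heN : ∀ v, (e v : ℕ) < N := fun v => (e v).2
  have key : ∀ v w, σ v ≤ σ w → m w ≤ m v := by
    intro v w h
    by_contra hlt
    push Not at hlt
    have h1 : M - m w + 1 ≤ M - m v := by have := hmM w; omega
    have h2 : (M - m w + 1) * N ≤ (M - m v) * N := Nat.mul_le_mul_right _ h1
    have h3 := heN w
    have h4 : (M - m v) * N + (e v : ℕ) ≤ (M - m w) * N + (e w : ℕ) := h
    rw [Nat.add_mul, Nat.one_mul] at h2
    omega
  refine ⟨σ, ?_, ?_⟩
  · intro v w h
    have h1 := key v w h.le
    have h2 := key w v h.ge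
    have h3 : m v = m w := le_antisymm h2 h1
    have h4 : (M - m v) * N + (e v : ℕ) = (M - m w) * N + (e w : ℕ) := h
    rw [h3] at h4
    exact e.injective (Fin.ext (by omega))
  · intro c S hS
    have hinv : ∀ x, Relation.ReflTransGen (fun x y => G.Adj x y ∧ σ y ≤ σ c) c x →
        ∀ t, x ∈ B t → Sep T r (top c) t := by
      intro x hx
      induction hx with
      | refl =>
        intro t ht
        exact sep_of_min hT (hconn c) (htop1 c) (fun s hs => htop2 c s hs) ht
      | @tail x y _ hxy ih =>
        intro t ht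
        obtain ⟨t0, hx0, hy0⟩ := hedge x y hxy.1
        have h0 := ih t0 hx0
        by_cases hu : y ∈ B (top c)
        · refine sep_of_min hT (hconn y) hu (fun s hs => ?_) ht
          exact (key y c hxy.2).trans (htop2 y s hs)
        · obtain ⟨q⟩ := (hconn y).preconnected ⟨t0, hy0⟩ ⟨t, ht⟩
          exact sep_conn (A := {t | y ∈ B t}) hu q h0
    have hsub : insert c S ⊆ B (top c) := by
      intro w hw
      rcases Finset.mem_insert.mp hw with rfl | hw
      · exact htop1 w
      · obtain ⟨hlt, x, hx, hxw⟩ := hS w hw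
        by_contra hu
        obtain ⟨t0, hx0, hw0⟩ := hedge x w hxw
        have h0 := hinv x hx t0 hx0
        obtain ⟨q⟩ := (hconn w).preconnected ⟨t0, hw0⟩ ⟨top w, htop1 w⟩
        have h1 := sep_conn (A := {t | w ∈ B t}) hu q h0
        have h2 := sep_dist hT.connected h1 (fun h => hu (h ▸ htop1 w))
        have h3 := key c w hlt.le
        exact absurd h2 (not_lt.mpr h3)
    have hc : c ∉ S := fun h => lt_irrefl _ (hS c h).1
    have h1 := (Finset.card_le_card hsub).trans (hcard (top c))
    rw [Finset.card_insert_of_notMem hc] at h1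
    omega

end Pool.Agent.W184.LIP.ELIM
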