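import Pool.Agent.W184.LIP.Defs

set_option autoImplicit false

namespace Pool.Agent.W184.LIP.FACTS

lemma pow_lev_dvd (N x : ℕ) : N ^ (lev N x) ∣ x := by
  unfold lev
  exact Nat.findGreatest_spec (P := fun e => N ^ e ∣ x) (m := 0) (Nat.zero_le _)
    (by rw [pow_zero]; exact one_dvd _)

lemma le_lev {N x e : ℕ} (hN : 2 ≤ N) (hx : 1 ≤ x) (h : N ^ e ∣ x) : e ≤ lev N x := by
  unfold lev
  have h1 : N ^ e ≤ x := Nat.le_of_dvd hx h
  have h2 : e < N ^ e := Nat.lt_pow_self hN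
  exact Nat.le_findGreatest (by omega) h

/-- the facts for a given representation -/
lemma rep {N y e : ℕ} (hN : 2 ≤ N) (hy : ¬ N ∣ y) :
    lev N (y * N ^ e) = e ∧ lo N (y * N ^ e) = y / N * N ^ (e + 1) ∧
      dig N (y * N ^ e) = y % N ∧ hi N (y * N ^ e) = (y / N + 1) * N ^ (e + 1) := by
  have hy1 : 1 ≤ y := by
    rcases Nat.eq_zero_or_pos y with h | h
    · exact absurd (h ▸ dvd_zero N) hy
    · exact h
  have hpos : 0 < N ^ e := Nat.pow_pos (by omega)
  have hx1 : 1 ≤ y * N ^ e := Nat.mul_pos hy1 hpos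
  have hlev : lev N (y * N ^ e) = e := by
    apply le_antisymm
    · by_contra hc
      push Not at hc
      have h1 : N ^ (e + 1) ∣ y * N ^ e := (pow_dvd_pow N hc).trans (pow_lev_dvd N _)
      apply hy
      rw [pow_succ, mul_comm y] at h1
      exact Nat.dvd_of_mul_dvd_mul_left hpos h1
    · exact le_lev hN hx1 (Dvd.intro_left y rfl)
  have hdiv : y * N ^ e / N ^ (e + 1) = y / N := by
    rw [pow_succ, mul_comm y]
    exact Nat.mul_div_mul_left y N hpos
  have hlo : lo N (y * N ^ e) = y / N * N ^ (e + 1) := by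
    unfold lo
    rw [hlev, hdiv]
  refine ⟨hlev, hlo, ?_, ?_⟩
  · unfold dig
    rw [hlev, Nat.mul_div_cancel _ hpos]
  · unfold hi
    rw [hlo, hlev]
    ring

lemma exists_rep {N x : ℕ} (hN : 2 ≤ N) (hx : 1 ≤ x) : ∃ y, ¬ N ∣ y ∧ x = y * N ^ (lev N x) := by
  obtain ⟨y, hy⟩ := pow_lev_dvd N x
  refine ⟨y, fun h => ?_, by rw [mul_comm]; exact hy⟩
  obtain ⟨c, hc⟩ := h
  have h1 : N ^ (lev N x + 1) ∣ x := ⟨c, by
    conv_lhs => rw [hy, hc]
    ring⟩
  have h2 := le_lev hN hx h1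
  omega

lemma consec {N q g : ℕ} (hN : 2 ≤ N) (hq : 1 ≤ q) : Consec N (q * N ^ g) ((q + 1) * N ^ g) := by
  have hpos : 0 < N ^ g := Nat.pow_pos (by omega)
  by_cases h1 : N ∣ q
  · have h2 : ¬ N ∣ q + 1 := by
      intro h
      have := (Nat.dvd_add_right h1).1 h
      have := Nat.le_of_dvd one_pos this
      omega
    obtain ⟨e1, e2, -, -⟩ := rep (e := g) hN h2
    refine Or.inr (Or.inr ⟨?_, ?_⟩)
    · rw [e1]
      have h3 : N ^ (g + 1) ∣ q * N ^ g := by
        rw [pow_succ, mul_comm (N ^ g)]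
        exact Nat.mul_dvd_mul_right h1 _
      exact le_lev hN (Nat.mul_pos hq hpos) h3
    · rw [e2, Nat.succ_div_of_not_dvd h2]
      obtain ⟨c, rfl⟩ := h1
      rw [Nat.mul_div_cancel_left _ (by omega : 0 < N)]
      ring
  · obtain ⟨e1, e2, e3, e4⟩ := rep (e := g) hN h1
    by_cases h2 : N ∣ q + 1
    · refine Or.inr (Or.inl ⟨?_, ?_⟩)
      · rw [e1]
        have h3 : N ^ (g + 1) ∣ (q + 1) * N ^ g := by
          rw [pow_succ, mul_comm (N ^ g)]
          exact Nat.mul_dvd_mul_right h2 _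
        exact le_lev hN (Nat.mul_pos (Nat.succ_pos _) hpos) h3
      · rw [e4, ← Nat.succ_div_of_dvd h2]
        obtain ⟨c, hc⟩ := h2
        rw [hc, Nat.mul_div_cancel_left _ (by omega : 0 < N)]
        ring
    · obtain ⟨f1, f2, f3, f4⟩ := rep (e := g) hN h2
      refine Or.inl ⟨?_, ?_, ?_⟩
      · rw [e1, f1]
      · rw [e2, f2, Nat.succ_div_of_not_dvd h2]
      · rw [e3, f3]
        have h3 : (q + 1) % N ≠ 0 := fun h => h2 (Nat.dvd_of_mod_eq_zero h)
        have h4 := Nat.div_add_mod q N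
        have h5 := Nat.div_add_mod (q + 1) N
        rw [Nat.succ_div_of_not_dvd h2] at h5
        omega

theorem pf : S_FACTS := by
  intro N d x hN hx hxd
  obtain ⟨y, hy, e⟩ := exists_rep hN hx
  set g := lev N x with hg
  obtain ⟨-, e2, e3, e4⟩ := rep (e := g) hN hy
  rw [← e] at e2 e3 e4
  have hpos : 0 < N ^ g := Nat.pow_pos (by omega)
  have hpos' : 0 < N ^ (g + 1) := Nat.pow_pos (by omega)
  have hdig0 : 1 ≤ y % N := by
    rcases Nat.eq_zero_or_pos (y % N) with h | h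
    · exact absurd (Nat.dvd_of_mod_eq_zero h) hy
    · exact h
  have hdigN : y % N < N := Nat.mod_lt _ (by omega)
  have hxe : x = y / N * N ^ (g + 1) + y % N * N ^ g := by
    conv_lhs => rw [e, ← Nat.div_add_mod y N]
    ring
  have h1 : 1 * N ^ g ≤ y % N * N ^ g := Nat.mul_le_mul_right _ hdig0
  have h2 : (y % N + 1) * N ^ g ≤ N * N ^ g := Nat.mul_le_mul_right _ hdigN
  have h3 : N * N ^ g = N ^ (g + 1) := by ring
  have h4 : (y % N + 1) * N ^ g = y % N * N ^ g + N ^ g := by ring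
  have h5 : (y / N + 1) * N ^ (g + 1) = y / N * N ^ (g + 1) + N ^ (g + 1) := by ring
  have hgd : g < d := by
    have h6 : N ^ g < N ^ d := by omega
    exact (Nat.pow_lt_pow_iff_right (by omega)).1 h6
  refine ⟨⟨?_, ?_, ?_⟩, ?_, ?_, ⟨?_, ?_, ?_⟩, hgd, ?_, ?_⟩
  · rw [e2]
    omega
  · rw [e4]
    omega
  · rw [e4]
    obtain ⟨c, rfl⟩ := Nat.exists_eq_add_of_lt hgd
    have h6 : N ^ (g + c + 1) = N ^ c * N ^ (g + 1) := by ring
    rw [h6]
    have h7 : y / N < N ^ c := by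
      have h8 : y / N * N ^ (g + 1) < N ^ c * N ^ (g + 1) := by
        rw [← h6]
        omega
      exact lt_of_mul_lt_mul_right h8 (Nat.zero_le _)
    exact Nat.mul_le_mul_right _ h7
  · intro h6
    rw [e2] at h6 ⊢
    exact le_lev hN h6 (Dvd.intro_left _ rfl)
  · rw [e4]
    exact le_lev hN (Nat.mul_pos (Nat.succ_pos _) hpos') (Dvd.intro_left _ rfl)
  · rw [e3]
    exact hdig0
  · rw [e3]
    exact hdigN
  · rw [e2, e3]
    exact hxe
  · intro h6
    rw [e2] at h6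
    rw [e2, e4]
    have h7 : 1 ≤ y / N := by
      rcases Nat.eq_zero_or_pos (y / N) with h | h
      · rw [h, zero_mul] at h6
        omega
      · exact h
    exact consec hN h7
  · have h6 := consec (g := 0) hN hx
    rw [pow_zero, mul_one, mul_one] at h6
    exact h6

end Pool.Agent.W184.LIP.FACTS
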