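import Pool.Agent.W184.LIP.Defs

namespace Pool.Agent.W184.LIP.FIN

open Pool.Agent.W184.LIP SimpleGraph

theorem path_mono {n m : ℕ} (h : n ≤ m) : (pathGraph n).IsContained (pathGraph m) := by
  refine ⟨⟨⟨Fin.castLE h, ?_⟩, ?_⟩⟩
  · intro a b hab
    rw [pathGraph_adj] at hab ⊢
    simpa using hab
  · exact Fin.castLE_injective h

theorem bdd (hUB : S_UB) (j e n : ℕ) (hj : 1 ≤ j) : BddAbove (Forced (2 * j + e) n) := by
  obtain ⟨N, G, h1, h2, h3⟩ := hUB j (n + 1) 1 e (by omega) le_rfl (Or.inl rfl)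
  refine ⟨1 + 2 * j * (n + 1), fun q hq => h3 q (hq N G h1 ?_)⟩
  refine (path_mono ?_).trans h2
  have h4 : n + 1 ≤ (n + 1) ^ j := by
    calc n + 1 = (n + 1) ^ 1 := (pow_one _).symm
      _ ≤ (n + 1) ^ j := Nat.pow_le_pow_right (by omega) hj
  have h5 : n + 1 < 2 ^ (n + 1) := Nat.lt_two_pow_self
  have h6 : 2 ^ (n + 1) ≤ 2 ^ ((n + 1) ^ j) := Nat.pow_le_pow_right (by omega) h4
  show n ≤ (1 + 1) ^ ((n + 1) ^ j) - 1
  norm_num
  omega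

theorem zero_mem (k n : ℕ) : 0 ∈ Forced k n := by
  intro N G _ _
  refine ⟨⟨⟨fun x => x.elim0, fun x => x.elim0⟩, fun {x} => x.elim0⟩⟩

theorem greatest (hUB : S_UB) (j e n : ℕ) (hj : 1 ≤ j) :
    IsGreatest (Forced (2 * j + e) n) (f (2 * j + e) n) :=
  ⟨Nat.sSup_mem ⟨0, zero_mem _ _⟩ (bdd hUB j e n hj), fun _ hq => le_csSup (bdd hUB j e n hj) hq⟩

end Pool.Agent.W184.LIP.FIN
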