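import Pool.Agent.W184.LIP.Defs

namespace Pool.Agent.W184.LIP.LB

open SimpleGraph

theorem pf : S_ELIM → S_NLB → S_LB := by
  intro hE hN k i j s n N G hs hij hk hTw hcont hind
  rcases Nat.eq_zero_or_pos n with hn | hn
  · subst hn; exact Nat.zero_le _
  obtain ⟨σ, hσ, hS⟩ := hE (Fin N) G k hTw
  obtain ⟨φ⟩ := hcont
  let P : ℕ → Fin N := fun x => if h : x - 1 < n then φ ⟨x - 1, h⟩ else φ ⟨0, hn⟩
  have hP : ∀ x (h1 : 1 ≤ x) (h2 : x ≤ n), P x = φ ⟨x - 1, by omega⟩ := by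
    intro x h1 h2
    simp only [P]
    rw [dif_pos (by omega)]
  have hφ : Function.Injective φ := φ.injective
  have hPinj : ∀ x y, 1 ≤ x → x ≤ n → 1 ≤ y → y ≤ n → P x = P y → x = y := by
    intro x y h1 h2 h3 h4 h
    rw [hP x h1 h2, hP y h3 h4] at h
    have := congrArg Fin.val (hφ h)
    simp only at this
    omega
  let A : SimpleGraph ℕ :=
    { Adj := fun x y => (1 ≤ x ∧ x ≤ n) ∧ (1 ≤ y ∧ y ≤ n) ∧ G.Adj (P x) (P y)
      symm := ⟨fun x y h => ⟨h.2.1, h.1, h.2.2.symm⟩⟩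
      loopless := ⟨fun x h => G.loopless.irrefl _ h.2.2⟩ }
  have hAdj : ∀ x y, A.Adj x y ↔ (1 ≤ x ∧ x ≤ n) ∧ (1 ≤ y ∧ y ≤ n) ∧ G.Adj (P x) (P y) :=
    fun x y => Iff.rfl
  refine hN n k s i j A (fun x => σ (P x)) hs hij hk ⟨?_, ?_, ?_, ?_, ?_⟩
  · intro x y h
    exact ((hAdj x y).1 h).1
  · intro a h1 h2
    rw [hAdj]
    refine ⟨⟨h1, by omega⟩, ⟨by omega, h2⟩, ?_⟩
    rw [hP a h1 (by omega), hP (a + 1) (by omega) h2]
    apply φ.toHom.map_adj
    rw [pathGraph_adj]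
    left
    simp only
    omega
  · intro x y h1 h2 h3 h4 h
    exact hPinj x y h1 h2 h3 h4 (hσ h)
  · intro c h1 h2 S hS'
    have hmem : ∀ w ∈ S, 1 ≤ w ∧ w ≤ n := by
      intro w hw
      obtain ⟨_, x, _, hx⟩ := hS' w hw
      exact ((hAdj x w).1 hx).2.1
    have hcard : (S.image P).card = S.card := by
      apply Finset.card_image_of_injOn
      intro x hx y hy h
      exact hPinj x y (hmem x hx).1 (hmem x hx).2 (hmem y hy).1 (hmem y hy).2 h
    rw [← hcard]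
    apply hS (P c)
    intro w hw
    obtain ⟨u, hu, rfl⟩ := Finset.mem_image.1 hw
    obtain ⟨hlt, x, hx, hxu⟩ := hS' u hu
    refine ⟨hlt, P x, ?_, ((hAdj x u).1 hxu).2.2⟩
    have hl : ∀ a b, (A.Adj a b ∧ (fun x => σ (P x)) b ≤ (fun x => σ (P x)) c) →
        (fun x y => G.Adj x y ∧ σ y ≤ σ (P c)) (P a) (P b) :=
      fun a b hab => ⟨((hAdj a b).1 hab.1).2.2, hab.2⟩
    clear hxu
    induction hx with
    | refl => exact Relation.ReflTransGen.refl
    | tail _ h2 ih => exact ih.tail (hl _ _ h2)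
  · intro m hm
    rcases Nat.lt_or_ge m 2 with h | h
    · omega
    obtain ⟨ψ⟩ := hm
    have hmem : ∀ a : Fin m, 1 ≤ ψ a ∧ ψ a ≤ n := by
      intro a
      have : ∃ b : Fin m, (pathGraph m).Adj a b := by
        rcases Nat.eq_zero_or_pos a.val with ha | ha
        · exact ⟨⟨1, by omega⟩, by rw [pathGraph_adj]; left; simp only; omega⟩
        · exact ⟨⟨a.val - 1, by omega⟩, by rw [pathGraph_adj]; right; simp only; omega⟩
      obtain ⟨b, hb⟩ := this
      have := ψ.map_rel_iff.2 hb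
      exact ((hAdj _ _).1 this).1
    apply hind m
    refine ⟨⟨⟨fun a => P (ψ a), ?_⟩, ?_⟩⟩
    · intro a b hab
      exact ψ.injective (hPinj _ _ (hmem a).1 (hmem a).2 (hmem b).1 (hmem b).2 hab)
    · intro a b
      rw [← ψ.map_rel_iff]
      change G.Adj (P (ψ a)) (P (ψ b)) ↔ _
      constructor
      · intro hG
        exact (hAdj _ _).2 ⟨hmem a, hmem b, hG⟩
      · intro hA
        exact ((hAdj _ _).1 hA).2.2

end Pool.Agent.W184.LIP.LB
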