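import Mathlib
import Pool.Agent.W184.LIP.Defs

namespace Pool.Agent.W184.LIP.NLB

open Pool.Agent.W184.LIP

theorem top_unique {n : ℕ} {σ : ℕ → ℕ} {l r c c' : ℕ} (hr : r ≤ n + 1)
    (inj : ∀ x y, 1 ≤ x → x ≤ n → 1 ≤ y → y ≤ n → σ x = σ y → x = y)
    (h : IsTop σ l r c) (h' : IsTop σ l r c') : c = c' := by
  obtain ⟨h1, h2, h3⟩ := h
  obtain ⟨h1', h2', h3'⟩ := h'
  exact inj c c' (by omega) (by omega) (by omega) (by omega)
    (le_antisymm (h3' c h1 h2) (h3 c' h1' h2'))

theorem pf : S_SIDEL → S_SIDER → S_COUNT → S_NLB := by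
  intro hSL hSR hC n k s i j A σ hs hij hk hStr
  have key : ∀ l r c, r ≤ n + 1 → IsTop σ l r c → ∀ S S' : Finset ℕ,
      (∀ w ∈ S, w ≤ l ∧ Reach A σ c w) → (∀ w ∈ S', r ≤ w ∧ Reach A σ c w) →
      S.card + S'.card ≤ k := by
    intro l r c hr hc S S' h1 h2
    obtain ⟨c1, c2, c3⟩ := hc
    have hd : Disjoint S S' := by
      rw [Finset.disjoint_left]
      intro w hw hw'
      have := (h1 w hw).1
      have := (h2 w hw').1
      omega
    rw [← Finset.card_union_of_disjoint hd]
    apply hStr.sep c (by omega) (by omega)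
    intro w hw
    rcases Finset.mem_union.mp hw with h | h
    · exact (h1 w h).2
    · exact (h2 w h).2
  refine hC n ((2 * s) ^ i) ((2 * s) ^ j) ((2 * s) ^ k) σ (SmallL A σ i) (SmallR A σ i)
    (SmallL A σ j) (SmallR A σ j) hStr.inj ?_ (hSL n k s i A σ hs hStr) (hSR n k s i A σ hs hStr)
    (hSL n k s j A σ hs hStr) (hSR n k s j A σ hs hStr) ?_ ?_
  · intro l r hN
    obtain ⟨hN1, hN2, hN3, hN4⟩ := hN
    by_cases hL : SmallL A σ i l r
    · exact Or.inl hL
    by_cases hR : SmallR A σ i l r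
    · exact Or.inr (Or.inl hR)
    right; right
    unfold SmallL at hL
    unfold SmallR at hR
    push Not at hL hR
    obtain ⟨c, hc, S, hS, hSc⟩ := hL
    obtain ⟨c', hc', S', hS', hSc'⟩ := hR
    have hcc : c = c' := top_unique hN2 hStr.inj hc hc'
    subst hcc
    constructor
    · intro d hd T hT
      have hdc : d = c := top_unique hN2 hStr.inj hd hc
      subst hdc
      have := key l r d hN2 hd T S' hT hS'
      omega
    · intro d hd T hT
      have hdc : d = c := top_unique hN2 hStr.inj hd hc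
      subst hdc
      have := key l r d hN2 hd S T hS hT
      omega
  · intro q l r h1 h2
    refine hSL n k s k A σ hs hStr q l r ?_ h2
    intro x hx
    obtain ⟨a1, a2, _⟩ := h1 x hx
    refine ⟨a1, a2, ?_⟩
    intro c hc S hS
    have := key (l x) (r x) c a1.2.1 hc S ∅ hS (by simp)
    simpa using this
  · intro q l r h1 h2
    refine hSR n k s k A σ hs hStr q l r ?_ h2
    intro x hx
    obtain ⟨a1, a2, _⟩ := h1 x hx
    refine ⟨a1, a2, ?_⟩
    intro c hc S hS
    have := key (l x) (r x) c a1.2.1 hc ∅ S (by simp) hS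
    simpa using this

end Pool.Agent.W184.LIP.NLB
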