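import Pool.Agent.W184.LIP.Defs

set_option autoImplicit false

namespace Pool.Agent.W184.LIP.SIDEL

open SimpleGraph

/-- A shortest chain has no repetition and no chord. -/
theorem short (R : ℕ → ℕ → Prop) (u v : ℕ)
    (h : ∃ d, ∃ f : ℕ → ℕ, f 0 = u ∧ f d = v ∧ ∀ i, i < d → R (f i) (f (i + 1))) :
    ∃ d, ∃ f : ℕ → ℕ, f 0 = u ∧ f d = v ∧ (∀ i, i < d → R (f i) (f (i + 1))) ∧
      (∀ i j, i < j → j ≤ d → f i ≠ f j) ∧ (∀ i j, i + 1 < j → j ≤ d → ¬ R (f i) (f j)) := by
  classical
  let d := Nat.find h
  obtain ⟨f, h0, hd, hR⟩ := Nat.find_spec h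
  have hmin : ∀ e, e < d → ¬ ∃ f : ℕ → ℕ, f 0 = u ∧ f e = v ∧ ∀ i, i < e → R (f i) (f (i + 1)) :=
    fun e he => Nat.find_min h he
  refine ⟨d, f, h0, hd, hR, ?_, ?_⟩
  · intro i j hij hj heq
    apply hmin (d - (j - i)) (by omega)
    refine ⟨fun t => if t ≤ i then f t else f (t + (j - i)), by simp [h0], ?_, ?_⟩
    · by_cases hc : d - (j - i) ≤ i
      · have h1 : d - (j - i) = i := by omega
        have h2 : d = j := by omega
        simp only [hc, if_true]
        rw [h1, heq, ← h2]; exact hd
      · simp only [hc, if_false]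
        have : d - (j - i) + (j - i) = d := by omega
        rw [this]; exact hd
    · intro t ht
      by_cases h1 : t + 1 ≤ i
      · have h2 : t ≤ i := by omega
        simp only [h1, h2, if_true]
        exact hR t (by omega)
      · by_cases h2 : t ≤ i
        · have h3 : t = i := by omega
          subst h3
          simp only [h1, le_refl, if_true, if_false]
          have h4 : t + 1 + (j - t) = j + 1 := by omega
          rw [h4, heq]
          exact hR j (by omega)
        · simp only [h1, h2, if_false]
          have h4 : t + 1 + (j - i) = t + (j - i) + 1 := by omega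
          rw [h4]
          exact hR _ (by omega)
  · intro i j hij hj hr
    apply hmin (d - (j - i - 1)) (by omega)
    refine ⟨fun t => if t ≤ i then f t else f (t + (j - i - 1)), by simp [h0], ?_, ?_⟩
    · have hc : ¬ (d - (j - i - 1) ≤ i) := by omega
      simp only [hc, if_false]
      have : d - (j - i - 1) + (j - i - 1) = d := by omega
      rw [this]; exact hd
    · intro t ht
      by_cases h1 : t + 1 ≤ i
      · have h2 : t ≤ i := by omega
        simp only [h1, h2, if_true]
        exact hR t (by omega)
      · by_cases h2 : t ≤ i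
        · have h3 : t = i := by omega
          subst h3
          simp only [h1, le_refl, if_true, if_false]
          have h4 : t + 1 + (j - t - 1) = j := by omega
          rw [h4]
          exact hr
        · simp only [h1, h2, if_false]
          have h4 : t + 1 + (j - i - 1) = t + (j - i - 1) + 1 := by omega
          rw [h4]
          exact hR _ (by omega)

/-- Inside a node everything is connected to the top below the top. -/
theorem inside (n k s : ℕ) (A : SimpleGraph ℕ) (σ : ℕ → ℕ) (hS : Str n k s A σ)
    (l r c : ℕ) (hr : r ≤ n + 1) (hc : IsTop σ l r c) (u : ℕ) (h1 : l < u) (h2 : u < r) :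
    Relation.ReflTransGen (fun x y => A.Adj x y ∧ σ y ≤ σ c) c u := by
  rcases le_total c u with h | h
  · induction u, h using Nat.le_induction with
    | base => exact Relation.ReflTransGen.refl
    | succ m hm ih =>
      have h3 := hc.1
      refine Relation.ReflTransGen.tail (ih (by omega) (by omega)) ⟨hS.path m (by omega) (by omega), ?_⟩
      exact hc.2.2 _ h1 h2
  · have key : ∀ e u : ℕ, u + e = c → l < u →
        Relation.ReflTransGen (fun x y => A.Adj x y ∧ σ y ≤ σ c) c u := by
      intro e
      induction e with
      | zero =>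
        intro u hu _
        have : u = c := by omega
        subst this
        exact Relation.ReflTransGen.refl
      | succ e ih =>
        intro u hu hlu
        have h3 := hc.1
        have h4 := hc.2.1
        refine Relation.ReflTransGen.tail (ih (u + 1) (by omega) (by omega))
          ⟨(hS.path u (by omega) (by omega)).symm, ?_⟩
        exact hc.2.2 _ hlu (by omega)
    exact key (c - u) u (by omega) h1

/-- The number of positions of a shortest chain in a region is at most `s`. -/
theorem region (n k s : ℕ) (A : SimpleGraph ℕ) (σ : ℕ → ℕ) (hS : Str n k s A σ)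
    (a b : ℕ) (ha : 1 ≤ a) (hab : a ≤ b) (hb : b ≤ n) :
    ∃ d, ∃ f : ℕ → ℕ, d + 1 ≤ s ∧ f 0 = a ∧ f d = b ∧ (∀ i, i < d → A.Adj (f i) (f (i + 1))) ∧
      (∀ i, i ≤ d → a ≤ f i ∧ f i ≤ b) := by
  obtain ⟨d, f, h0, hd, h1, h2, h3⟩ := short
    (fun x y => A.Adj x y ∧ (a ≤ x ∧ x ≤ b) ∧ (a ≤ y ∧ y ≤ b)) a b
    ⟨b - a, fun t => a + t, by simp, by show a + (b - a) = b; omega, by
      intro i hi
      show A.Adj (a + i) (a + i + 1) ∧ (a ≤ a + i ∧ a + i ≤ b) ∧ (a ≤ a + i + 1 ∧ a + i + 1 ≤ b)
      exact ⟨hS.path _ (by omega) (by omega), ⟨by omega, by omega⟩, ⟨by omega, by omega⟩⟩⟩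
  have hreg : ∀ i, i ≤ d → a ≤ f i ∧ f i ≤ b := by
    intro i hi
    rcases Nat.lt_or_ge i d with h | h
    · exact (h1 i h).2.1
    · have : i = d := by omega
      subst this
      rw [hd]; exact ⟨hab, le_refl _⟩
  refine ⟨d, f, ?_, h0, hd, fun i hi => (h1 i hi).1, hreg⟩
  apply hS.ind
  have hinj : Function.Injective (fun i : Fin (d + 1) => f i) := by
    intro i j hij
    by_contra hne
    rcases lt_or_gt_of_ne (fun h => hne (Fin.ext h) : (i : ℕ) ≠ j) with h | h
    · exact h2 i j h (by omega) hij
    · exact h2 j i h (by omega) hij.symm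
  refine ⟨⟨⟨fun i => f i, hinj⟩, ?_⟩⟩
  intro i j
  simp only [Function.Embedding.coeFn_mk, pathGraph_adj]
  constructor
  · intro hadj
    rcases lt_trichotomy (i : ℕ) j with h | h | h
    · left
      by_contra hne
      exact h3 i j (by omega) (by omega) ⟨hadj, hreg _ (by omega), hreg _ (by omega)⟩
    · exfalso
      rw [h] at hadj
      exact hadj.ne rfl
    · right
      by_contra hne
      exact h3 j i (by omega) (by omega) ⟨hadj.symm, hreg _ (by omega), hreg _ (by omega)⟩
  · rintro (h | h)
    · rw [← h]; exact (h1 i (by omega)).1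
    · rw [← h]; exact (h1 j (by omega)).1.symm

theorem key (n k s : ℕ) (A : SimpleGraph ℕ) (σ : ℕ → ℕ) (hs : 1 ≤ s) (hS : Str n k s A σ)
    (q : ℕ) (l r c : ℕ → ℕ)
    (hN : ∀ x, x < q → Node n σ (l x) (r x) ∧ 1 ≤ l x ∧ IsTop σ (l x) (r x) (c x))
    (hm : ∀ x y, x < y → y < q → l x < l y ∧ r y ≤ r x) :
    ∀ (j x0 : ℕ) (X : Finset ℕ), (∀ x ∈ X, x < q ∧ x0 < l x ∧
      ∀ S : Finset ℕ, (∀ w ∈ S, x0 < w ∧ w ≤ l x ∧ Reach A σ (c x) w) → S.card ≤ j) →
      X.card ≤ (2 * s) ^ j := by
  classical
  -- the left end is reached from the top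
  have hl : ∀ x, x < q → Reach A σ (c x) (l x) := by
    intro x hx
    obtain ⟨⟨h1, h2, h3, h4⟩, h5, h6⟩ := hN x hx
    refine ⟨h3 h5 _ h6.1 h6.2.1, l x + 1,
      inside n k s A σ hS (l x) (r x) (c x) h2 h6 _ (by omega) h1, ?_⟩
    exact (hS.path (l x) h5 (by have := h6.1; have := h6.2.1; omega)).symm
  intro j
  induction j with
  | zero =>
    intro x0 X hX
    rcases X.eq_empty_or_nonempty with rfl | ⟨x, hx⟩
    · simp
    · obtain ⟨h1, h2, h3⟩ := hX x hx
      have := h3 {l x} (by
        intro w hw
        rw [Finset.mem_singleton] at hw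
        subst hw
        exact ⟨h2, le_refl _, hl x h1⟩)
      simp at this
  | succ j ih =>
    intro x0 X hX
    rcases X.eq_empty_or_nonempty with rfl | hne
    · simp
    · -- extreme members
      let a := X.min' hne
      let b := X.max' hne
      have haX : a ∈ X := X.min'_mem hne
      have hbX : b ∈ X := X.max'_mem hne
      have hlea : ∀ y ∈ X, a ≤ y := fun y hy => X.min'_le y hy
      have hleb : ∀ y ∈ X, y ≤ b := fun y hy => X.le_max' y hy
      have hab : l a ≤ l b := by
        rcases (hlea b hbX).eq_or_lt with h | h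
        · rw [← h]
        · exact (hm a b h (hX b hbX).1).1.le
      have hbn : l b ≤ n := by
        have := (hN b (hX b hbX).1).1
        have h1 := this.1
        have h2 := this.2.1
        omega
      obtain ⟨d, f, hd1, hf0, hfd, hadj, hreg⟩ := region n k s A σ hS (l a) (l b)
        (hN a (hX a haX).1).2.1 hab hbn
      -- every member is hit
      have hhit : ∀ y ∈ X, ∃ i, i ≤ d ∧ Reach A σ (c y) (f i) := by
        intro y hy
        have hyq := (hX y hy).1
        rcases (hlea y hy).eq_or_lt with h | h
        · exact ⟨0, by omega, by rw [hf0, h]; exact hl y hyq⟩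
        rcases (hleb y hy).eq_or_lt with h' | h'
        · exact ⟨d, le_refl _, by rw [hfd, ← h']; exact hl y hyq⟩
        obtain ⟨hNy, hly, hty⟩ := hN y hyq
        have hbq := (hX b hbX).1
        obtain ⟨hNb, hlb, htb⟩ := hN b hbq
        obtain ⟨hNa, hla, hta⟩ := hN a (hX a haX).1
        have m1 := hm y b h' hbq
        have m2 := hm a y h hyq
        have hlbin : l y < l b ∧ l b < r y := ⟨m1.1, by have := hNb.1; omega⟩
        have hreach : Relation.ReflTransGen (fun x z => A.Adj x z ∧ σ z ≤ σ (c y)) (c y) (l b) :=
          inside n k s A σ hS (l y) (r y) (c y) hNy.2.1 hty _ hlbin.1 hlbin.2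
        have h0 : σ (c y) < σ (f 0) := by
          rw [hf0]
          have e1 : σ (l y) < σ (l a) := hNa.2.2.1 hla (l y) m2.1 (by have := hNy.1; omega)
          have e2 := (hl y hyq).1
          omega
        -- go down from `d`
        have hdown : ∀ e i, i + e = d →
            (∃ t, t ≤ d ∧ Reach A σ (c y) (f t)) ∨
              Relation.ReflTransGen (fun x z => A.Adj x z ∧ σ z ≤ σ (c y)) (c y) (f i) := by
          intro e
          induction e with
          | zero =>
            intro i hi
            right
            have : i = d := by omega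
            rw [this, hfd]; exact hreach
          | succ e ihe =>
            intro i hi
            rcases ihe (i + 1) (by omega) with h1 | h1
            · exact Or.inl h1
            · have hA := (hadj i (by omega)).symm
              by_cases hlt : σ (c y) < σ (f i)
              · exact Or.inl ⟨i, by omega, hlt, f (i + 1), h1, hA⟩
              · exact Or.inr (h1.tail ⟨hA, by omega⟩)
        rcases hdown d 0 (by omega) with h1 | h1
        · exact h1
        · -- then `f 0` would be low, or `f 0 = c y`
          exfalso
          rcases Relation.ReflTransGen.cases_tail h1 with h2 | ⟨z, _, h3⟩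
          · rw [h2] at h0; exact lt_irrefl _ h0
          · have := h3.2; omega
      -- position of the hits
      have hpos : ∀ y ∈ X, ∀ i, i ≤ d → Reach A σ (c y) (f i) → f i ≤ l y := by
        intro y hy i hi hR
        by_contra hcon
        have hyq := (hX y hy).1
        have hbq := (hX b hbX).1
        obtain ⟨hNy, hly, hty⟩ := hN y hyq
        have hr : r b ≤ r y := by
          rcases (hleb y hy).eq_or_lt with h' | h'
          · rw [h']
          · exact (hm y b h' hbq).2
        have h1 := (hN b hbq).1.1
        have h2 := hreg i hi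
        have h3 := hty.2.2 (f i) (by omega) (by omega)
        have h4 := hR.1
        omega
      -- each fibre
      have hfib : ∀ i, i ≤ d → (X.filter (fun y => Reach A σ (c y) (f i))).card ≤ (2 * s) ^ j + 1 := by
        intro i hi
        have hsub : X.filter (fun y => Reach A σ (c y) (f i)) ⊆
            (X.filter (fun y => Reach A σ (c y) (f i) ∧ f i < l y)) ∪
            (X.filter (fun y => l y = f i)) := by
          intro y hy
          rw [Finset.mem_filter] at hy
          rw [Finset.mem_union, Finset.mem_filter, Finset.mem_filter]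
          rcases (hpos y hy.1 i hi hy.2).eq_or_lt with h | h
          · exact Or.inr ⟨hy.1, h.symm⟩
          · exact Or.inl ⟨hy.1, hy.2, h⟩
        refine (Finset.card_le_card hsub).trans ((Finset.card_union_le _ _).trans ?_)
        have h1 : (X.filter (fun y => l y = f i)).card ≤ 1 := by
          rw [Finset.card_le_one]
          intro y hy z hz
          rw [Finset.mem_filter] at hy hz
          by_contra hne
          rcases lt_or_gt_of_ne hne with h | h
          · have := (hm y z h (hX z hz.1).1).1; omega
          · have := (hm z y h (hX y hy.1).1).1; omega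
        have h2 : (X.filter (fun y => Reach A σ (c y) (f i) ∧ f i < l y)).card ≤ (2 * s) ^ j := by
          apply ih (f i)
          intro y hy
          rw [Finset.mem_filter] at hy
          obtain ⟨hyX, hyR, hyl⟩ := hy
          refine ⟨(hX y hyX).1, hyl, ?_⟩
          intro S hSS
          have hx0 : x0 < f i := by
            have := (hX a haX).2.1
            have := (hreg i hi).1
            omega
          have h3 := (hX y hyX).2.2 (insert (f i) S) (by
            intro w hw
            rw [Finset.mem_insert] at hw
            rcases hw with rfl | hw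
            · exact ⟨hx0, hyl.le, hyR⟩
            · obtain ⟨g1, g2, g3⟩ := hSS w hw
              exact ⟨by omega, g2, g3⟩)
          rw [Finset.card_insert_of_notMem (fun hw => by
            have := (hSS _ hw).1; omega)] at h3
          omega
        omega
      have hcover : X ⊆ (Finset.range (d + 1)).biUnion
          (fun i => X.filter (fun y => Reach A σ (c y) (f i))) := by
        intro y hy
        obtain ⟨i, hi, hR⟩ := hhit y hy
        rw [Finset.mem_biUnion]
        exact ⟨i, Finset.mem_range.mpr (by omega), Finset.mem_filter.mpr ⟨hy, hR⟩⟩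
      calc X.card ≤ _ := Finset.card_le_card hcover
        _ ≤ ∑ i ∈ Finset.range (d + 1), (X.filter (fun y => Reach A σ (c y) (f i))).card :=
          Finset.card_biUnion_le
        _ ≤ ∑ i ∈ Finset.range (d + 1), ((2 * s) ^ j + 1) :=
          Finset.sum_le_sum (fun i hi => hfib i (by rw [Finset.mem_range] at hi; omega))
        _ = (d + 1) * ((2 * s) ^ j + 1) := by simp
        _ ≤ s * ((2 * s) ^ j + 1) := Nat.mul_le_mul_right _ hd1
        _ ≤ (2 * s) ^ (j + 1) := by
          have h1 : 1 ≤ (2 * s) ^ j := Nat.one_le_pow _ _ (by omega)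
          rw [pow_succ]
          nlinarith

/-- SIDEL -/
theorem pf : S_SIDEL := by
  classical
  intro n k s j A σ hs hS q l r h1 h2
  have hex : ∀ x, ∃ c, x < q → IsTop σ (l x) (r x) c := by
    intro x
    by_cases hx : x < q
    · have hne : (Finset.Ioo (l x) (r x)).Nonempty := ⟨l x + 1, by
        rw [Finset.mem_Ioo]; exact ⟨by omega, (h1 x hx).1.1⟩⟩
      obtain ⟨c, hc, hmax⟩ := Finset.exists_max_image (Finset.Ioo (l x) (r x)) σ hne
      rw [Finset.mem_Ioo] at hc
      exact ⟨c, fun _ => ⟨hc.1, hc.2, fun y hy1 hy2 => hmax y (Finset.mem_Ioo.mpr ⟨hy1, hy2⟩)⟩⟩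
    · exact ⟨0, fun h => absurd h hx⟩
  choose c hc using hex
  have hm : ∀ x y, x < y → y < q → l x < l y ∧ r y ≤ r x := by
    intro x y hxy
    induction y, hxy using Nat.le_induction with
    | base => intro hy; exact h2 x hy
    | succ m hm ih =>
      intro hy
      have g1 := ih (by omega)
      have g2 := h2 m hy
      omega
  have := key n k s A σ hs hS q l r c (fun x hx => ⟨(h1 x hx).1, (h1 x hx).2.1, hc x hx⟩) hm j 0
    (Finset.range q) (by
      intro x hx
      rw [Finset.mem_range] at hx
      obtain ⟨g1, g2, g3⟩ := h1 x hx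
      exact ⟨hx, by omega, fun S hSS => g3 (c x) (hc x hx) S (fun w hw =>
        ⟨(hSS w hw).2.1, (hSS w hw).2.2⟩)⟩)
  simpa using this

end Pool.Agent.W184.LIP.SIDEL
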