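import Pool.Agent.W184.LIP.Defs

set_option autoImplicit false

namespace Pool.Agent.W184.LIP.SIDER

open SimpleGraph Pool.Agent.W184.LIP

/-- the reflected graph -/
def refl (n : ℕ) (A : SimpleGraph ℕ) : SimpleGraph ℕ where
  Adj x y := (1 ≤ x ∧ x ≤ n) ∧ (1 ≤ y ∧ y ≤ n) ∧ A.Adj (n + 1 - x) (n + 1 - y)
  symm := ⟨by
    rintro x y ⟨h1, h2, h3⟩
    exact ⟨h2, h1, h3.symm⟩⟩
  loopless := ⟨fun x h => A.loopless.irrefl _ h.2.2⟩

/-- the reflected order -/
def rs (n : ℕ) (σ : ℕ → ℕ) : ℕ → ℕ := fun x => σ (n + 1 - x)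

lemma reach_refl {n : ℕ} {A : SimpleGraph ℕ} {σ : ℕ → ℕ} {c w : ℕ}
    (h : Reach (refl n A) (rs n σ) c w) :
    (1 ≤ w ∧ w ≤ n) ∧ Reach A σ (n + 1 - c) (n + 1 - w) := by
  obtain ⟨h1, x, hx, hxw⟩ := h
  refine ⟨hxw.2.1, h1, n + 1 - x, ?_, hxw.2.2⟩
  refine Relation.ReflTransGen.lift (fun x => n + 1 - x) ?_ _ _ hx
  rintro a b ⟨hab, hb⟩
  exact ⟨hab.2.2, hb⟩

lemma card_le {n j : ℕ} (S : Finset ℕ) (hS : ∀ w ∈ S, 1 ≤ w ∧ w ≤ n)
    (h : (S.image (fun x => n + 1 - x)).card ≤ j) : S.card ≤ j := by
  rwa [Finset.card_image_of_injOn] at h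
  intro a ha b hb hab
  have h1 := hS a ha
  have h2 := hS b hb
  simp only at hab
  omega

theorem str_refl {n k s : ℕ} {A : SimpleGraph ℕ} {σ : ℕ → ℕ} (h : Str n k s A σ) :
    Str n k s (refl n A) (rs n σ) where
  dom := fun x y hxy => hxy.1
  path := fun i h1 h2 => by
    refine ⟨⟨h1, by omega⟩, ⟨by omega, h2⟩, ?_⟩
    have := (h.path (n - i) (by omega) (by omega)).symm
    have e1 : n - i + 1 = n + 1 - i := by omega
    have e2 : n - i = n + 1 - (i + 1) := by omega
    rwa [e1, e2] at this
  inj := fun x y h1 h2 h3 h4 h5 => by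
    have := h.inj (n + 1 - x) (n + 1 - y) (by omega) (by omega) (by omega) (by omega) h5
    omega
  sep := fun c h1 h2 S hS => by
    refine card_le (n := n) S (fun w hw => (reach_refl (hS w hw)).1) ?_
    refine h.sep (n + 1 - c) (by omega) (by omega) _ ?_
    intro w hw
    obtain ⟨v, hv, rfl⟩ := Finset.mem_image.mp hw
    exact (reach_refl (hS v hv)).2
  ind := fun m hm => by
    refine h.ind m ?_
    obtain ⟨f⟩ := hm
    by_cases h1 : m ≤ 1
    · have : Subsingleton (Fin m) := Fin.subsingleton_iff_le_one.mpr h1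
      refine ⟨⟨⟨fun _ => 0, fun a b _ => Subsingleton.elim a b⟩, ?_⟩⟩
      intro a b
      have : a = b := Subsingleton.elim a b
      subst this
      simp
    · have hr : ∀ a : Fin m, 1 ≤ f a ∧ f a ≤ n := by
        intro a
        have : ∃ b : Fin m, (pathGraph m).Adj a b := by
          by_cases ha : a.1 + 1 < m
          · refine ⟨⟨a.1 + 1, ha⟩, ?_⟩
            rw [pathGraph_adj]
            left
            rfl
          · refine ⟨⟨a.1 - 1, by omega⟩, ?_⟩
            rw [pathGraph_adj]
            right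
            have := a.2
            simp only
            omega
        obtain ⟨b, hb⟩ := this
        have := f.map_rel_iff.mpr hb
        exact this.1
      refine ⟨⟨⟨fun a => n + 1 - f a, ?_⟩, ?_⟩⟩
      · intro a b hab
        simp only at hab
        have h2 := hr a
        have h3 := hr b
        apply f.injective
        omega
      · intro a b
        simp only [Function.Embedding.coeFn_mk]
        rw [← f.map_rel_iff]
        constructor
        · intro h4
          exact ⟨hr a, hr b, h4⟩
        · intro h4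
          exact h4.2.2

theorem pf : S_SIDEL → S_SIDER := by
  intro hL n k s j A σ hs hstr q l r hq hstep
  have key := hL n k s j (refl n A) (rs n σ) hs (str_refl hstr) q (fun x => n + 1 - r x)
    (fun x => n + 1 - l x) ?_ ?_
  · exact key
  · intro x hx
    obtain ⟨hN, hr, hS⟩ := hq x hx
    obtain ⟨n1, n2, n3, n4⟩ := hN
    refine ⟨⟨?_, ?_, ?_, ?_⟩, ?_, ?_⟩
    · omega
    · omega
    · intro h1 y hy1 hy2
      unfold rs
      have e : n + 1 - (n + 1 - r x) = r x := by omega
      rw [e]
      exact n4 hr (n + 1 - y) (by omega) (by omega)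
    · intro h1 y hy1 hy2
      unfold rs
      have e : n + 1 - (n + 1 - l x) = l x := by omega
      rw [e]
      exact n3 (by omega) (n + 1 - y) (by omega) (by omega)
    · omega
    · intro c hc S hS'
      obtain ⟨c1, c2, c3⟩ := hc
      refine card_le (n := n) S (fun w hw => (reach_refl (hS' w hw).2).1) ?_
      refine hS (n + 1 - c) ⟨by omega, by omega, ?_⟩ _ ?_
      · intro y hy1 hy2
        have := c3 (n + 1 - y) (by omega) (by omega)
        unfold rs at this
        have e : n + 1 - (n + 1 - y) = y := by omega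
        rwa [e] at this
      · intro w hw
        obtain ⟨v, hv, rfl⟩ := Finset.mem_image.mp hw
        have h5 := hS' v hv
        have h6 := reach_refl h5.2
        refine ⟨?_, h6.2⟩
        have := h5.1
        omega
  · intro x hx
    have h1 := hstep x hx
    have h2 := (hq x (by omega)).2.1
    have h3 := (hq (x + 1) hx).2.1
    omega

end Pool.Agent.W184.LIP.SIDER
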