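import Pool.Agent.W184.LIP.Defs

namespace Pool.Agent.W184.LIP.STEP

open Pool.Agent.W184.LIP

theorem pf : S_STEPI → S_STEPE → S_STEP := by
  intro hI hE m k t d A hm hd hA
  obtain ⟨h1, h2⟩ := hI m k t d A hm hd hA
  exact ⟨SubG (m + 1) d A, ⟨h1, h2, hE m k t d A hm hd hA⟩⟩

end Pool.Agent.W184.LIP.STEP
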