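import Pool.Agent.W184.LIP.Defs

/-!
# STEPE: the elimination order of the substitution graph
-/

namespace Pool.Agent.W184.LIP.STEPE

open Pool.Agent.W184.LIP

theorem subR_symm {N d : ℕ} {C : ℕ → ℕ → Prop} (hC : ∀ x y, C x y → C y x) {x y : ℕ}
    (h : SubR N d C x y) : SubR N d C y x := by
  obtain ⟨h1, h2, h3, h4⟩ := h
  refine ⟨h1.symm, h3, h2, ?_⟩
  rcases h4 with ⟨h5, h6, h7⟩ | h5 | h5
  · exact Or.inl ⟨h5.symm, h6.symm, hC _ _ h7⟩
  · exact Or.inr (Or.inr h5)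
  · exact Or.inr (Or.inl h5)

theorem enc {a b s t M : ℕ} (hs : s < M) (ht : t < M) (h : a * M + s = b * M + t) :
    a = b ∧ s = t := by
  have h1 : a = b := by
    rcases lt_trichotomy a b with h1 | h1 | h1
    · have h2 : (a + 1) * M ≤ b * M := Nat.mul_le_mul_right _ h1
      rw [add_mul] at h2
      omega
    · exact h1
    · have h2 : (b + 1) * M ≤ a * M := Nat.mul_le_mul_right _ h1
      rw [add_mul] at h2
      omega
  subst h1
  exact ⟨rfl, by omega⟩

theorem enc_lt {a b s t M : ℕ} (hs : s < M) (h : a < b) : a * M + s < b * M + t := by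
  have h2 : (a + 1) * M ≤ b * M := Nat.mul_le_mul_right _ h
  rw [add_mul] at h2
  omega

/-- the order -/
noncomputable def ord (N d M : ℕ) (σ0 : ℕ → ℕ) (x : ℕ) : ℕ :=
  (lev N x * N ^ d + lo N x) * M + σ0 (dig N x)

theorem pf : S_FACTS → S_STEPE := by
  intro facts m k t d A hm hd hPG
  obtain ⟨C0, σ0, hsym, hAC, hinj, helim⟩ := hPG.elim
  have hN : 2 ≤ m + 1 := by omega
  have F := fun x (h1 : 1 ≤ x) (h2 : x ≤ (m + 1) ^ d - 1) =>
    facts (m + 1) d x hN h1 (by
      have : 0 < (m + 1) ^ d := pow_pos (by omega) d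
      omega)
  have hNd : 0 < (m + 1) ^ d := pow_pos (by omega) d
  set M : ℕ := (∑ i ∈ Finset.range (m + 1), σ0 i) + 1 with hMdef
  have hM : ∀ i, i ≤ m → σ0 i < M := by
    intro i hi
    have := Finset.single_le_sum (f := σ0) (s := Finset.range (m + 1)) (fun _ _ => Nat.zero_le _)
      (Finset.mem_range.2 (by omega : i < m + 1))
    omega
  -- bounds
  have hlo : ∀ x, 1 ≤ x → x ≤ (m + 1) ^ d - 1 → lo (m + 1) x < (m + 1) ^ d := by
    intro x h1 h2
    have := (F x h1 h2).1.1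
    omega
  have hdig : ∀ x, 1 ≤ x → x ≤ (m + 1) ^ d - 1 → 1 ≤ dig (m + 1) x ∧ dig (m + 1) x ≤ m := by
    intro x h1 h2
    have := (F x h1 h2).2.2.2.1
    omega
  have hform : ∀ x, 1 ≤ x → x ≤ (m + 1) ^ d - 1 →
      x = lo (m + 1) x + dig (m + 1) x * (m + 1) ^ (lev (m + 1) x) := by
    intro x h1 h2
    exact (F x h1 h2).2.2.2.1.2.2
  -- larger level, larger order
  have hlev : ∀ x y, 1 ≤ x → x ≤ (m + 1) ^ d - 1 → 1 ≤ y → y ≤ (m + 1) ^ d - 1 →
      lev (m + 1) x < lev (m + 1) y → ord (m + 1) d M σ0 x < ord (m + 1) d M σ0 y := by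
    intro x y h1 h2 h3 h4 h
    refine enc_lt (hM _ (hdig x h1 h2).2) ?_
    have h5 := hlo x h1 h2
    have h6 : (lev (m + 1) x + 1) * (m + 1) ^ d ≤ lev (m + 1) y * (m + 1) ^ d :=
      Nat.mul_le_mul_right _ h
    rw [add_mul, one_mul] at h6
    omega
  refine ⟨SubR (m + 1) d C0, ord (m + 1) d M σ0, fun x y h => subR_symm hsym h, ?_, ?_, ?_⟩
  · intro x y hx1 hx2 hy1 hy2 h
    obtain ⟨h1, h2, h3, h4⟩ := h
    refine ⟨h1, h2, h3, ?_⟩
    rcases h4 with ⟨h5, h6, h7⟩ | h5 | h5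
    · exact Or.inl ⟨h5, h6, hAC _ _ (hdig x hx1 hx2).1 (hdig x hx1 hx2).2 (hdig y hy1 hy2).1
        (hdig y hy1 hy2).2 h7⟩
    · exact Or.inr (Or.inl h5)
    · exact Or.inr (Or.inr h5)
  · intro x y hx1 hx2 hy1 hy2 h
    obtain ⟨h1, h2⟩ := enc (hM _ (hdig x hx1 hx2).2) (hM _ (hdig y hy1 hy2).2) h
    obtain ⟨h3, h4⟩ := enc (hlo x hx1 hx2) (hlo y hy1 hy2) h1
    have h5 := hinj _ _ (hdig x hx1 hx2).1 (hdig x hx1 hx2).2 (hdig y hy1 hy2).1
        (hdig y hy1 hy2).2 h2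
    rw [hform x hx1 hx2, hform y hy1 hy2, h3, h4, h5]
  · intro c hc1 hc2
    obtain ⟨⟨f1, f2, f3⟩, f4, f5, f6, f7, f8, f9⟩ := F c hc1 hc2
    obtain ⟨hcard, hcliq⟩ := helim (dig (m + 1) c) (hdig c hc1 hc2).1 (hdig c hc1 hc2).2
    -- classification of the higher neighbours
    have cls : ∀ v, 1 ≤ v → v ≤ (m + 1) ^ d - 1 → SubR (m + 1) d C0 c v →
        ord (m + 1) d M σ0 c < ord (m + 1) d M σ0 v →
        (lev (m + 1) v = lev (m + 1) c ∧ lo (m + 1) v = lo (m + 1) c ∧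
          C0 (dig (m + 1) c) (dig (m + 1) v) ∧ σ0 (dig (m + 1) c) < σ0 (dig (m + 1) v)) ∨
        (lev (m + 1) c < lev (m + 1) v ∧ (v = lo (m + 1) c ∨ v = hi (m + 1) c)) := by
      intro v hv1 hv2 h hlt
      obtain ⟨h1, h2, h3, h4⟩ := h
      rcases h4 with ⟨h5, h6, h7⟩ | h5 | h5
      · left
        refine ⟨h5.symm, h6.symm, h7, ?_⟩
        unfold ord at hlt
        rw [h5, h6] at hlt
        omega
      · right
        exact h5
      · exfalso
        have := hlev v c hv1 hv2 hc1 hc2 h5.1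
        omega
    refine ⟨?_, ?_⟩
    · intro S hS
      classical
      let S1 := S.filter (fun v => lev (m + 1) v = lev (m + 1) c ∧ lo (m + 1) v = lo (m + 1) c ∧
          C0 (dig (m + 1) c) (dig (m + 1) v) ∧ σ0 (dig (m + 1) c) < σ0 (dig (m + 1) v))
      have hS1 : S1.card ≤ k := by
        rw [← Finset.card_image_of_injOn (f := dig (m + 1)) (s := S1)]
        · apply hcard
          intro u hu
          obtain ⟨v, hv, rfl⟩ := Finset.mem_image.1 hu
          obtain ⟨hv1, hv2⟩ := Finset.mem_filter.1 hv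
          obtain ⟨g1, g2, g3, g4⟩ := hS v hv1
          exact ⟨(hdig v g1 g2).1, (hdig v g1 g2).2, hv2.2.2.1, hv2.2.2.2⟩
        · intro v hv w hw hvw
          obtain ⟨hv1, hv2⟩ := Finset.mem_filter.1 (Finset.mem_coe.1 hv)
          obtain ⟨hw1, hw2⟩ := Finset.mem_filter.1 (Finset.mem_coe.1 hw)
          obtain ⟨g1, g2, g3, g4⟩ := hS v hv1
          obtain ⟨g5, g6, g7, g8⟩ := hS w hw1
          rw [hform v g1 g2, hform w g5 g6, hv2.1, hv2.2.1, hw2.1, hw2.2.1, hvw]
      have hsub : S ⊆ S1 ∪ {lo (m + 1) c, hi (m + 1) c} := by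
        intro v hv
        obtain ⟨g1, g2, g3, g4⟩ := hS v hv
        rcases cls v g1 g2 g3 g4 with h | h
        · exact Finset.mem_union_left _ (Finset.mem_filter.2 ⟨hv, h⟩)
        · refine Finset.mem_union_right _ ?_
          rcases h.2 with h | h
          · rw [h]
            exact Finset.mem_insert_self _ _
          · rw [h]
            exact Finset.mem_insert_of_mem (Finset.mem_singleton_self _)
      have h2 : ({lo (m + 1) c, hi (m + 1) c} : Finset ℕ).card ≤ 2 := Finset.card_le_two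
      have := Finset.card_le_card hsub
      have := Finset.card_union_le S1 {lo (m + 1) c, hi (m + 1) c}
      omega
    · intro v w hv1 hv2 hw1 hw2 hne hcv hcw hv hw
      -- the two ends are related
      have hends : ∀ x y, 1 ≤ x → x ≤ (m + 1) ^ d - 1 → 1 ≤ y → y ≤ (m + 1) ^ d - 1 →
          x = lo (m + 1) c → y = hi (m + 1) c → SubR (m + 1) d C0 x y := by
        intro x y hx1 hx2 hy1 hy2 hx hy
        have hcons := f8 (by omega)
        rw [← hx, ← hy] at hcons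
        refine ⟨by omega, ⟨hx1, by omega⟩, ⟨hy1, by omega⟩, ?_⟩
        rcases hcons with ⟨c1, c2, c3⟩ | ⟨c1, c2⟩ | ⟨c1, c2⟩
        · refine Or.inl ⟨c1, c2, ?_⟩
          have d1 := hdig x hx1 hx2
          have d2 := hdig y hy1 hy2
          rw [c3]
          exact hAC _ _ d1.1 d1.2 (by omega) (by omega) (hPG.ham _ d1.1 (by omega))
        · exact Or.inr (Or.inl ⟨c1, Or.inr c2⟩)
        · exact Or.inr (Or.inr ⟨c1, Or.inl c2⟩)
      -- a sibling and an end
      have hsib : ∀ x y, 1 ≤ x → x ≤ (m + 1) ^ d - 1 → 1 ≤ y → y ≤ (m + 1) ^ d - 1 →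
          lev (m + 1) x = lev (m + 1) c → lo (m + 1) x = lo (m + 1) c →
          lev (m + 1) c < lev (m + 1) y → (y = lo (m + 1) c ∨ y = hi (m + 1) c) →
          SubR (m + 1) d C0 x y := by
        intro x y hx1 hx2 hy1 hy2 e1 e2 e3 e4
        refine ⟨?_, ⟨hx1, by omega⟩, ⟨hy1, by omega⟩, Or.inr (Or.inl ⟨by omega, ?_⟩)⟩
        · rintro rfl
          omega
        · have : hi (m + 1) x = hi (m + 1) c := by
            unfold hi
            rw [e1, e2]
          rw [this, e2]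
          exact e4
      rcases cls v hv1 hv2 hcv hv with ⟨a1, a2, a3, a4⟩ | ⟨a1, a2⟩
      · rcases cls w hw1 hw2 hcw hw with ⟨b1, b2, b3, b4⟩ | ⟨b1, b2⟩
        · refine ⟨hne, ⟨hv1, by omega⟩, ⟨hw1, by omega⟩, Or.inl ⟨by omega, by omega, ?_⟩⟩
          refine hcliq _ _ (hdig v hv1 hv2).1 (hdig v hv1 hv2).2 (hdig w hw1 hw2).1
            (hdig w hw1 hw2).2 ?_ a3 b3 a4 b4
          intro h
          apply hne
          rw [hform v hv1 hv2, hform w hw1 hw2, a1, a2, b1, b2, h]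
        · exact hsib v w hv1 hv2 hw1 hw2 a1 a2 b1 b2
      · rcases cls w hw1 hw2 hcw hw with ⟨b1, b2, b3, b4⟩ | ⟨b1, b2⟩
        · exact subR_symm hsym (hsib w v hw1 hw2 hv1 hv2 b1 b2 a1 a2)
        · rcases a2 with a2 | a2 <;> rcases b2 with b2 | b2
          · exact absurd (a2.trans b2.symm) hne
          · exact hends v w hv1 hv2 hw1 hw2 a2 b2
          · exact subR_symm hsym (hends w v hw1 hw2 hv1 hv2 b2 a2)
          · exact absurd (a2.trans b2.symm) hne

end Pool.Agent.W184.LIP.STEPE
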