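import Pool.Agent.W184.LIP.Defs

/-!
# LIP, part STEPI: Hamiltonian path and induced paths of the substitution graph
-/

namespace Pool.Agent.W184.LIP.STEPI

open SimpleGraph

theorem hi_eq {N x y : ℕ} (h1 : lev N x = lev N y) (h2 : lo N x = lo N y) :
    hi N x = hi N y := by
  unfold hi; rw [h1, h2]

theorem adj_consec (hF : S_FACTS) {m k t d : ℕ} {A : SimpleGraph ℕ} (hA : PG m k t A)
    (hm : 1 ≤ m) {u w : ℕ} (hu : 1 ≤ u) (hu' : u < (m + 1) ^ d) (hw : 1 ≤ w)
    (hw' : w < (m + 1) ^ d) (h : Consec (m + 1) u w) : (SubG (m + 1) d A).Adj u w := by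
  have hN : 2 ≤ m + 1 := by omega
  have fu := hF (m + 1) d u hN hu hu'
  have fw := hF (m + 1) d w hN hw hw'
  show SubR (m + 1) d A.Adj u w
  rcases h with ⟨h1, h2, h3⟩ | ⟨h1, h2⟩ | ⟨h1, h2⟩
  · refine ⟨?_, ⟨hu, hu'⟩, ⟨hw, hw'⟩, Or.inl ⟨h1, h2, ?_⟩⟩
    · rintro rfl; omega
    · rw [h3]
      exact hA.ham _ fu.2.2.2.1.1 (by have := fw.2.2.2.1.2.1; omega)
  · refine ⟨?_, ⟨hu, hu'⟩, ⟨hw, hw'⟩, Or.inr (Or.inl ⟨h1, Or.inr h2⟩)⟩
    rintro rfl; omega
  · refine ⟨?_, ⟨hu, hu'⟩, ⟨hw, hw'⟩, Or.inr (Or.inr ⟨h1, Or.inl h2⟩)⟩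
    rintro rfl; omega

theorem nv (hF : S_FACTS) {m k t d : ℕ} {A : SimpleGraph ℕ} (hA : PG m k t A) (hm : 1 ≤ m)
    {x0 x1 x2 : ℕ} (h02 : x0 ≠ x2) (h01 : (SubG (m + 1) d A).Adj x0 x1)
    (h12 : (SubG (m + 1) d A).Adj x1 x2) (hl0 : lev (m + 1) x1 < lev (m + 1) x0)
    (hl2 : lev (m + 1) x1 ≤ lev (m + 1) x2) : (SubG (m + 1) d A).Adj x0 x2 := by
  have hN : 2 ≤ m + 1 := by omega
  obtain ⟨n01, r0, r1, c01⟩ : SubR (m + 1) d A.Adj x0 x1 := h01
  obtain ⟨n12, _, r2, c12⟩ : SubR (m + 1) d A.Adj x1 x2 := h12
  have f1 := hF (m + 1) d x1 hN r1.1 r1.2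
  have e0 : x0 = lo (m + 1) x1 ∨ x0 = hi (m + 1) x1 := by
    rcases c01 with ⟨h, _⟩ | ⟨h, _⟩ | ⟨_, h⟩
    · omega
    · omega
    · exact h
  rcases c12 with ⟨h, h', _⟩ | ⟨h, h'⟩ | ⟨h, _⟩
  · show SubR (m + 1) d A.Adj x0 x2
    refine ⟨h02, r0, r2, Or.inr (Or.inr ⟨by omega, ?_⟩)⟩
    rw [← h', ← hi_eq h h']
    exact e0
  · rcases e0 with e0 | e0 <;> rcases h' with e2 | e2
    · exact absurd (e0.trans e2.symm) h02
    · have hc := f1.2.2.2.2.2.1 (by rw [← e0]; exact r0.1)
      rw [← e0, ← e2] at hc
      exact adj_consec hF hA hm r0.1 r0.2 r2.1 r2.2 hc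
    · have hc := f1.2.2.2.2.2.1 (by rw [← e2]; exact r2.1)
      rw [← e0, ← e2] at hc
      exact (adj_consec hF hA hm r2.1 r2.2 r0.1 r0.2 hc).symm
    · exact absurd (e0.trans e2.symm) h02
  · omega

theorem pf : S_FACTS → S_STEPI := by
  intro hF m k t d A hm hd hA
  have hN : 2 ≤ m + 1 := by omega
  have hpos : 1 ≤ (m + 1) ^ d := Nat.one_le_pow _ _ (by omega)
  refine ⟨?_, ?_⟩
  · intro i hi1 hi2
    have h1 : i < (m + 1) ^ d := by omega
    have h2 : i + 1 < (m + 1) ^ d := by omega
    exact adj_consec hF hA hm hi1 h1 (by omega) h2 (hF (m + 1) d i hN hi1 h1).2.2.2.2.2.2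
  · intro L p hr hinj hadj
    have hr1 : ∀ a, a < L → 1 ≤ p a := fun a ha => (hr a ha).1
    have hr2 : ∀ a, a < L → p a < (m + 1) ^ d := fun a ha => by
      have := (hr a ha).2; omega
    set l : ℕ → ℕ := fun a => lev (m + 1) (p a) with hl
    have hlt : ∀ a, a < L → l a < d := fun a ha =>
      (hF (m + 1) d (p a) hN (hr1 a ha) (hr2 a ha)).2.2.2.2.1
    have hstep : ∀ a, a + 1 < L → (SubG (m + 1) d A).Adj (p a) (p (a + 1)) := fun a ha =>
      (hadj a (a + 1) (by omega) ha).2 (Or.inl rfl)
    have hnon : ∀ a, a + 2 < L → ¬ (SubG (m + 1) d A).Adj (p a) (p (a + 2)) := fun a ha h => by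
      have := (hadj a (a + 2) (by omega) ha).1 h
      omega
    have hne : ∀ a, a + 2 < L → p a ≠ p (a + 2) := fun a ha h => by
      have := hinj a (a + 2) (by omega) ha h
      omega
    -- descents continue
    have hdesc : ∀ a, a + 2 < L → l (a + 1) < l a → l (a + 2) < l (a + 1) := by
      intro a ha h
      by_contra hc
      exact hnon a ha (nv hF hA hm (hne a ha) (hstep a (by omega)) (hstep (a + 1) ha) h
        (by simpa [hl] using hc))
    -- ascents come from ascents
    have hasc : ∀ a, a + 2 < L → l (a + 1) < l (a + 2) → l a < l (a + 1) := by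
      intro a ha h
      by_contra hc
      exact hnon a ha (nv hF hA hm (hne a ha).symm (hstep (a + 1) ha).symm
        (hstep a (by omega)).symm h (by simpa [hl] using hc)).symm
    by_cases hL : L = 0
    · omega
    -- end of the ascending part
    have hex : ∃ u, ¬ (u + 1 < L ∧ l u < l (u + 1)) := ⟨L, by omega⟩
    obtain ⟨u, hu, humin⟩ : ∃ u, ¬ (u + 1 < L ∧ l u < l (u + 1)) ∧
        ∀ a, a < u → (a + 1 < L ∧ l a < l (a + 1)) := by
      classical
      refine ⟨Nat.find hex, Nat.find_spec hex, fun a ha => ?_⟩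
      exact not_not.1 (Nat.find_min hex ha)
    have huL : u < L := by
      rcases Nat.eq_zero_or_pos u with h | h
      · omega
      · have := (humin (u - 1) (by omega)).1
        omega
    have hu1 : ∀ a, a ≤ u → a ≤ l a := by
      intro a
      induction a with
      | zero => intro _; exact Nat.zero_le _
      | succ a ih =>
        intro h
        have h1 := ih (by omega)
        have h2 := (humin a (by omega)).2
        omega
    have hud : u < d := lt_of_le_of_lt (hu1 u le_rfl) (hlt u huL)
    -- end of the plateau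
    have hex2 : ∃ v, u ≤ v ∧ ¬ (v + 1 < L ∧ l (v + 1) = l v) := ⟨L, by omega, by omega⟩
    obtain ⟨v, ⟨huv, hv⟩, hvmin⟩ : ∃ v, (u ≤ v ∧ ¬ (v + 1 < L ∧ l (v + 1) = l v)) ∧
        ∀ a, u ≤ a → a < v → (a + 1 < L ∧ l (a + 1) = l a) := by
      classical
      refine ⟨Nat.find hex2, Nat.find_spec hex2, fun a ha1 ha => ?_⟩
      have := Nat.find_min hex2 ha
      by_contra hc
      exact this ⟨ha1, hc⟩
    have hvL : v < L := by
      rcases Nat.lt_or_ge u v with h | h
      · have := (hvmin (v - 1) (by omega) (by omega)).1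
        omega
      · omega
    -- plateau data
    have hplat : ∀ b, u + b ≤ v → l (u + b) = l u ∧ lo (m + 1) (p (u + b)) = lo (m + 1) (p u) := by
      intro b
      induction b with
      | zero => intro _; exact ⟨rfl, rfl⟩
      | succ b ih =>
        intro h
        obtain ⟨h1, h2⟩ := ih (by omega)
        obtain ⟨h3, h4⟩ := hvmin (u + b) (by omega) (by omega)
        have hs := hstep (u + b) h3
        obtain ⟨_, _, _, hc⟩ : SubR (m + 1) d A.Adj (p (u + b)) (p (u + b + 1)) := hs
        have h4' : lev (m + 1) (p (u + b + 1)) = lev (m + 1) (p (u + b)) := h4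
        refine ⟨by rw [← add_assoc, h4, h1], ?_⟩
        rcases hc with ⟨_, h, _⟩ | ⟨h, _⟩ | ⟨h, _⟩
        · rw [← add_assoc, ← h, h2]
        · omega
        · omega
    have hpl : v - u + 1 ≤ t := by
      refine hA.ind (v - u + 1) (fun a => dig (m + 1) (p (u + a))) ?_ ?_ ?_
      · intro a ha
        have hf := (hF (m + 1) d (p (u + a)) hN (hr1 _ (by omega)) (hr2 _ (by omega))).2.2.2.1
        exact ⟨hf.1, by have := hf.2.1; omega⟩
      · intro a b ha hb hab
        have hfa := (hF (m + 1) d (p (u + a)) hN (hr1 _ (by omega)) (hr2 _ (by omega))).2.2.2.1.2.2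
        have hfb := (hF (m + 1) d (p (u + b)) hN (hr1 _ (by omega)) (hr2 _ (by omega))).2.2.2.1.2.2
        obtain ⟨a1, a2⟩ := hplat a (by omega)
        obtain ⟨b1, b2⟩ := hplat b (by omega)
        have a1' : lev (m + 1) (p (u + a)) = lev (m + 1) (p u) := a1
        have b1' : lev (m + 1) (p (u + b)) = lev (m + 1) (p u) := b1
        have hab' : dig (m + 1) (p (u + a)) = dig (m + 1) (p (u + b)) := hab
        have : p (u + a) = p (u + b) := by
          rw [hfa, hfb, a1', b1', a2, b2, hab']
        have := hinj (u + a) (u + b) (by omega) (by omega) this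
        omega
      · intro a b ha hb
        obtain ⟨a1, a2⟩ := hplat a (by omega)
        obtain ⟨b1, b2⟩ := hplat b (by omega)
        have a1' : lev (m + 1) (p (u + a)) = lev (m + 1) (p u) := a1
        have b1' : lev (m + 1) (p (u + b)) = lev (m + 1) (p u) := b1
        have hiff := hadj (u + a) (u + b) (by omega) (by omega)
        have key : A.Adj (dig (m + 1) (p (u + a))) (dig (m + 1) (p (u + b))) ↔
            (SubG (m + 1) d A).Adj (p (u + a)) (p (u + b)) := by
          constructor
          · intro h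
            show SubR (m + 1) d A.Adj _ _
            refine ⟨?_, ⟨hr1 _ (by omega), hr2 _ (by omega)⟩,
              ⟨hr1 _ (by omega), hr2 _ (by omega)⟩, Or.inl ⟨by rw [a1', b1'], by rw [a2, b2], h⟩⟩
            intro he
            rw [he] at h
            exact A.loopless.irrefl _ h
          · intro h
            obtain ⟨_, _, _, hc⟩ : SubR (m + 1) d A.Adj (p (u + a)) (p (u + b)) := h
            rcases hc with ⟨_, _, h⟩ | ⟨h, _⟩ | ⟨h, _⟩
            · exact h
            · omega
            · omega
        rw [key, hiff]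
        omega
    -- descending part
    have hdn : L ≤ v + d := by
      rcases Nat.lt_or_ge (v + 1) L with h | h
      · have h0 : l (v + 1) < l v := by
          have hne' : l (v + 1) ≠ l v := fun h' => hv ⟨h, h'⟩
          rcases lt_or_gt_of_ne hne' with h' | h'
          · exact h'
          · exfalso
            rcases Nat.lt_or_ge u v with h'' | h''
            · have hq := (hvmin (v - 1) (by omega) (by omega)).2
              have e1 : v - 1 + 1 = v := by omega
              have e2 : v - 1 + 2 = v + 1 := by omega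
              have := hasc (v - 1) (by omega) (by rw [e1, e2]; exact h')
              omega
            · have e : v = u := by omega
              subst e
              exact hu ⟨h, h'⟩
        have hd' : ∀ b, v + b + 1 < L → l (v + b + 1) < l (v + b) := by
          intro b
          induction b with
          | zero => intro _; exact h0
          | succ b ih =>
            intro hb
            have h1 := ih (by omega)
            exact hdesc (v + b) (by omega) h1
        have hsum : ∀ b, v + b < L → l (v + b) + b ≤ l v := by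
          intro b
          induction b with
          | zero => intro _; exact le_rfl
          | succ b ih =>
            intro hb
            have h1 := ih (by omega)
            have h2 := hd' b (by omega)
            have e : v + (b + 1) = v + b + 1 := by omega
            rw [e]
            omega
        have h1 := hsum (L - 1 - v) (by omega)
        have h2 := hlt v hvL
        omega
      · have := hlt v hvL
        omega
    omega

end Pool.Agent.W184.LIP.STEPI
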