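import Pool.Agent.W184.LIP.Defs

/-! An elimination order gives a tree decomposition. -/

namespace Pool.Agent.W184.LIP.TREE

open SimpleGraph

theorem pf : S_TREE := by
  classical
  intro m k G C σ hm hsym hGC hinj hcard hcl
  have hne : Nonempty (Fin m) := ⟨⟨0, hm⟩⟩
  obtain ⟨M, -, hM⟩ := Finset.exists_max_image (Finset.univ : Finset (Fin m)) σ
    Finset.univ_nonempty
  have hM' : ∀ x, x ≠ M → σ x < σ M := fun x hx =>
    lt_of_le_of_ne (hM x (Finset.mem_univ _)) (fun h => hx (hinj h))
  have hpar : ∀ x : Fin m, ∃ p : Fin m,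
      (∀ v, C x v → σ x < σ v → C x p ∧ σ x < σ p ∧ σ p ≤ σ v) ∧ (x ≠ M → σ x < σ p) := by
    intro x
    by_cases hU : ((Finset.univ : Finset (Fin m)).filter (fun v => C x v ∧ σ x < σ v)).Nonempty
    · obtain ⟨p, hp, hmin⟩ := Finset.exists_min_image _ σ hU
      rw [Finset.mem_filter] at hp
      exact ⟨p, fun v h1 h2 => ⟨hp.2.1, hp.2.2, hmin v
        (Finset.mem_filter.2 ⟨Finset.mem_univ _, h1, h2⟩)⟩, fun _ => hp.2.2⟩
    · exact ⟨M, fun v h1 h2 => absurd ⟨v, Finset.mem_filter.2 ⟨Finset.mem_univ _, h1, h2⟩⟩ hU,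
        fun hx => hM' x hx⟩
  choose p hp1 hp2 using hpar
  let T : SimpleGraph (Fin m) :=
    { Adj := fun x y => (x ≠ M ∧ y = p x) ∨ (y ≠ M ∧ x = p y)
      symm := ⟨fun x y h => h.symm⟩
      loopless := ⟨fun x h => by
        rcases h with ⟨h1, h2⟩ | ⟨h1, h2⟩
        · have := hp2 x h1
          rw [← h2] at this
          exact lt_irrefl _ this
        · have := hp2 x h1
          rw [← h2] at this
          exact lt_irrefl _ this⟩ }
  have hTA : ∀ x, x ≠ M → T.Adj x (p x) := fun x hx => Or.inl ⟨hx, rfl⟩
  have hreach : ∀ (n : ℕ) (x : Fin m), σ M - σ x ≤ n → T.Reachable x M := by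
    intro n
    induction n with
    | zero =>
      intro x h
      have : x = M := by
        by_contra hx
        have := hM' x hx
        omega
      rw [this]
    | succ n ih =>
      intro x h
      by_cases hx : x = M
      · rw [hx]
      · have h1 := hp2 x hx
        have h3 := hM (p x) (Finset.mem_univ _)
        exact (hTA x hx).reachable.trans (ih (p x) (by omega))
  have hconn : T.Connected := by
    rw [connected_iff_exists_forall_reachable]
    exact ⟨M, fun x => (hreach _ x le_rfl).symm⟩
  have hT : T.IsTree := by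
    rw [isTree_iff_connected_and_card]
    refine ⟨hconn, ?_⟩
    let f : {x : Fin m // x ≠ M} → T.edgeSet := fun x => ⟨s(x.1, p x.1), hTA x.1 x.2⟩
    have hf : Function.Bijective f := by
      constructor
      · intro x y h
        have h1 : s(x.1, p x.1) = s(y.1, p y.1) := congrArg Subtype.val h
        rw [Sym2.eq_iff] at h1
        rcases h1 with ⟨h1, _⟩ | ⟨h1, h2⟩
        · exact Subtype.ext h1
        · have h3 := hp2 x.1 x.2
          have h4 := hp2 y.1 y.2
          rw [h2] at h3
          rw [← h1] at h4
          exact absurd h3 (not_lt.2 h4.le)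
      · rintro ⟨e, he⟩
        induction e with
        | h x y =>
          have he' : T.Adj x y := he
          rcases he' with ⟨h1, h2⟩ | ⟨h1, h2⟩
          · refine ⟨⟨x, h1⟩, Subtype.ext ?_⟩
            show s(x, p x) = s(x, y)
            rw [h2]
          · refine ⟨⟨y, h1⟩, Subtype.ext ?_⟩
            show s(y, p y) = s(x, y)
            rw [← h2, Sym2.eq_swap]
    rw [← Nat.card_eq_of_bijective f hf, Nat.card_eq_fintype_card, Nat.card_eq_fintype_card,
      Fintype.card_subtype, Finset.filter_ne', Finset.card_erase_of_mem (Finset.mem_univ _),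
      Finset.card_univ, Fintype.card_fin]
    omega
  refine ⟨m, T, fun c => insert c (Finset.univ.filter (fun v => C c v ∧ σ c < σ v)), hT,
    fun v => ⟨v, Finset.mem_insert_self _ _⟩, ?_, ?_, ?_⟩
  · intro u v huv
    have hC := hGC u v huv
    rcases lt_or_gt_of_ne (fun h => huv.ne (hinj h) : σ u ≠ σ v) with h | h
    · refine ⟨u, Finset.mem_insert_self _ _, ?_⟩
      exact Finset.mem_insert_of_mem (Finset.mem_filter.2 ⟨Finset.mem_univ _, hC, h⟩)
    · refine ⟨v, ?_, Finset.mem_insert_self _ _⟩
      exact Finset.mem_insert_of_mem (Finset.mem_filter.2 ⟨Finset.mem_univ _, hsym _ _ hC, h⟩)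
  · intro v
    have hmem : ∀ t : Fin m, (t ∈ {t : Fin m | v ∈ (insert t (Finset.univ.filter
        (fun v => C t v ∧ σ t < σ v)) : Finset (Fin m))}) ↔ (v = t ∨ (C t v ∧ σ t < σ v)) := by
      intro t
      rw [Set.mem_ofPred_eq, Finset.mem_insert, Finset.mem_filter]
      simp
    set S : Set (Fin m) := {t : Fin m | v ∈ (insert t (Finset.univ.filter
        (fun v => C t v ∧ σ t < σ v)) : Finset (Fin m))} with hS
    have hvS : v ∈ S := (hmem v).2 (Or.inl rfl)
    rw [connected_iff_exists_forall_reachable]
    refine ⟨⟨v, hvS⟩, ?_⟩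
    have key : ∀ (n : ℕ) (t : S), σ v - σ t.1 ≤ n → (T.induce S).Reachable t ⟨v, hvS⟩ := by
      intro n
      induction n with
      | zero =>
        intro t h
        have ht := (hmem t.1).1 t.2
        have : t = ⟨v, hvS⟩ := by
          rcases ht with h1 | ⟨_, h1⟩
          · exact Subtype.ext h1.symm
          · omega
        rw [this]
      | succ n ih =>
        intro t h
        rcases (hmem t.1).1 t.2 with h1 | ⟨h1, h2⟩
        · have : t = ⟨v, hvS⟩ := Subtype.ext h1.symm
          rw [this]
        · obtain ⟨h3, h4, h5⟩ := hp1 t.1 v h1 h2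
          have htM : t.1 ≠ M := by
            intro he
            have := hM v (Finset.mem_univ _)
            rw [← he] at this
            omega
          have hpS : p t.1 ∈ S := by
            rw [hmem]
            by_cases hpv : p t.1 = v
            · exact Or.inl hpv.symm
            · refine Or.inr ⟨hcl t.1 (p t.1) v hpv h3 h1 h4 h2, ?_⟩
              exact lt_of_le_of_ne h5 (fun h => hpv (hinj h))
          have hadj : (T.induce S).Adj t ⟨p t.1, hpS⟩ := hTA t.1 htM
          refine hadj.reachable.trans (ih ⟨p t.1, hpS⟩ ?_)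
          show σ v - σ (p t.1) ≤ n
          omega
    exact fun t => (key _ t le_rfl).symm
  · intro t
    refine (Finset.card_insert_le _ _).trans ?_
    have := hcard t (Finset.univ.filter (fun v => C t v ∧ σ t < σ v))
      (fun v hv => (Finset.mem_filter.1 hv).2)
    omega

end Pool.Agent.W184.LIP.TREE
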