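import Pool.Agent.W184.LIP.Defs

set_option autoImplicit false

/-!
# Long induced paths in graphs of bounded treewidth: the iterated construction (UB)
-/

namespace Pool.Agent.W184.LIP.UB

open SimpleGraph Pool.Agent.W184.LIP

/-- the infinite path -/
def PA : SimpleGraph ℕ where
  Adj x y := x + 1 = y ∨ y + 1 = x
  symm := ⟨fun _ _ h => h.symm⟩
  loopless := ⟨fun x h => by rcases h with h | h <;> omega⟩

theorem base (m e : ℕ) (hm : 1 ≤ m) (hme : m = 1 ∨ e = 1) : PG m e m PA where
  ham i _ _ := Or.inl rfl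
  ind L p h1 h2 _ := by
    have h3 : ((Finset.range L).image p).card = L := by
      rw [Finset.card_image_of_injOn, Finset.card_range]
      intro a ha b hb hab
      exact h2 a b (by simpa using ha) (by simpa using hb) hab
    have h4 : (Finset.range L).image p ⊆ Finset.Icc 1 m := by
      intro x hx
      obtain ⟨a, ha, rfl⟩ := Finset.mem_image.1 hx
      exact Finset.mem_Icc.2 (h1 a (Finset.mem_range.1 ha))
    have h5 := Finset.card_le_card h4
    rw [h3, Nat.card_Icc] at h5
    omega
  elim := by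
    refine ⟨PA.Adj, id, fun x y h => h.symm, fun _ _ _ _ _ _ h => h, fun _ _ _ _ _ _ h => h,
      fun c hc1 hc2 => ⟨fun S hS => ?_, fun v w _ _ _ _ hvw h1 h2 h3 h4 => ?_⟩⟩
    · have h1 : ∀ v ∈ S, v = c + 1 := by
        intro v hv
        obtain ⟨-, -, h2, h3⟩ := hS v hv
        simp only [id] at h3
        rcases h2 with h2 | h2 <;> omega
      rcases hme with rfl | rfl
      · have h2 : S = ∅ := by
          refine Finset.eq_empty_of_forall_notMem fun v hv => ?_
          have h3 := h1 v hv
          obtain ⟨-, h4, -, -⟩ := hS v hv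
          omega
        rw [h2]
        simp
      · have h2 : S ⊆ {c + 1} := fun v hv => by
          rw [Finset.mem_singleton]
          exact h1 v hv
        have h3 := Finset.card_le_card h2
        simpa using h3
    · exfalso
      simp only [id] at h3 h4
      have h5 : v = c + 1 := by
        rcases h1 with h1 | h1 <;> omega
      have h6 : w = c + 1 := by
        rcases h2 with h2 | h2 <;> omega
      omega

theorem iter (hs : S_STEP) (s m e : ℕ) (hs1 : 1 ≤ s) (hm : 1 ≤ m) (hme : m = 1 ∨ e = 1) (j : ℕ) :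
    ∃ A, PG ((m + 1) ^ (s ^ j) - 1) (2 * j + e) (m + 2 * j * s) A := by
  induction j with
  | zero =>
    refine ⟨PA, ?_⟩
    have h := base m e hm hme
    simpa using h
  | succ j ih =>
    obtain ⟨A, hA⟩ := ih
    have h1 : 1 < (m + 1) ^ (s ^ j) := by
      refine Nat.one_lt_pow ?_ (by omega)
      positivity
    obtain ⟨A', hA'⟩ := hs _ _ _ s A (by omega) hs1 hA
    refine ⟨A', ?_⟩
    have e1 : ((m + 1) ^ (s ^ j) - 1 + 1) ^ s = (m + 1) ^ (s ^ (j + 1)) := by
      rw [Nat.sub_add_cancel h1.le, ← pow_mul, ← pow_succ]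
    have e2 : 2 * j + e + 2 = 2 * (j + 1) + e := by ring
    have e3 : m + 2 * j * s + 2 * s = m + 2 * (j + 1) * s := by ring
    rw [e1, e2, e3] at hA'
    exact hA'

theorem pf : S_STEP → S_CONV → S_UB := by
  intro hs hc j s m e hs1 hm hme
  obtain ⟨A, hA⟩ := iter hs s m e hs1 hm hme j
  have h1 : 1 < (m + 1) ^ (s ^ j) := by
    refine Nat.one_lt_pow ?_ (by omega)
    positivity
  obtain ⟨G, h2, h3, h4⟩ := hc _ _ _ A (by omega) hA
  exact ⟨_, G, h2, h3, h4⟩

end Pool.Agent.W184.LIP.UB
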