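import Pool.Agent.W184.LIP.Defs

set_option autoImplicit false

namespace Pool.Agent.W184.LIP.COUNT

open Pool.Agent.W184.LIP

/-- chain of `P`-nodes with real strictly increasing left ends below `m` and right ends `≥ r` -/
def CLb (n : ℕ) (σ : ℕ → ℕ) (P : ℕ → ℕ → Prop) (q m r : ℕ) : Prop :=
  ∃ L R : ℕ → ℕ, (∀ x, x < q → Node n σ (L x) (R x) ∧ 1 ≤ L x ∧ P (L x) (R x)) ∧
    (∀ x, x + 1 < q → L x < L (x + 1) ∧ R (x + 1) ≤ R x) ∧ ∀ x, x < q → L x < m ∧ r ≤ R x

/-- mirror image -/
def CRb (n : ℕ) (σ : ℕ → ℕ) (P : ℕ → ℕ → Prop) (q l m : ℕ) : Prop :=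
  ∃ L R : ℕ → ℕ, (∀ x, x < q → Node n σ (L x) (R x) ∧ R x ≤ n ∧ P (L x) (R x)) ∧
    (∀ x, x + 1 < q → L x ≤ L (x + 1) ∧ R (x + 1) < R x) ∧ ∀ x, x < q → L x ≤ l ∧ m ≤ R x

section
variable {n : ℕ} {σ : ℕ → ℕ} {P : ℕ → ℕ → Prop}

theorem CLb.zero (m r : ℕ) : CLb n σ P 0 m r :=
  ⟨fun _ => 0, fun _ => 0, fun x hx => absurd hx (by omega), fun x hx => absurd hx (by omega),
    fun x hx => absurd hx (by omega)⟩

theorem CRb.zero (l m : ℕ) : CRb n σ P 0 l m :=
  ⟨fun _ => 0, fun _ => 0, fun x hx => absurd hx (by omega), fun x hx => absurd hx (by omega),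
    fun x hx => absurd hx (by omega)⟩

theorem CLb.mono {q m r m' r' : ℕ} (h : CLb n σ P q m r) (hm : m ≤ m') (hr : r' ≤ r) :
    CLb n σ P q m' r' := by
  obtain ⟨L, R, h1, h2, h3⟩ := h
  exact ⟨L, R, h1, h2, fun x hx => ⟨lt_of_lt_of_le (h3 x hx).1 hm, le_trans hr (h3 x hx).2⟩⟩

theorem CRb.mono {q l m l' m' : ℕ} (h : CRb n σ P q l m) (hl : l ≤ l') (hm : m' ≤ m) :
    CRb n σ P q l' m' := by
  obtain ⟨L, R, h1, h2, h3⟩ := h
  exact ⟨L, R, h1, h2, fun x hx => ⟨le_trans (h3 x hx).1 hl, le_trans hm (h3 x hx).2⟩⟩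

theorem CLb.bound {q m r a : ℕ} (h : CLb n σ P q m r) (ha : ChainL n σ P a) : q ≤ a := by
  obtain ⟨L, R, h1, h2, _⟩ := h
  exact ha q L R h1 h2

theorem CRb.bound {q l m a : ℕ} (h : CRb n σ P q l m) (ha : ChainR n σ P a) : q ≤ a := by
  obtain ⟨L, R, h1, h2, _⟩ := h
  exact ha q L R h1 h2

theorem CLb.append {q l r : ℕ} (h : CLb n σ P q l r) (hN : Node n σ l r) (hl : 1 ≤ l)
    (hP : P l r) : CLb n σ P (q + 1) (l + 1) r := by
  obtain ⟨L, R, h1, h2, h3⟩ := h
  refine ⟨fun x => if x < q then L x else l, fun x => if x < q then R x else r, ?_, ?_, ?_⟩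
  · intro x hx
    by_cases hxq : x < q
    · simp only [hxq, if_true]; exact h1 x hxq
    · simp only [hxq, if_false]; exact ⟨hN, hl, hP⟩
  · intro x hx
    have hxq : x < q := by omega
    by_cases hx1 : x + 1 < q
    · simp only [hxq, hx1, if_true]; exact h2 x hx1
    · simp only [hxq, hx1, if_true, if_false]; exact h3 x hxq
  · intro x hx
    by_cases hxq : x < q
    · simp only [hxq, if_true]; have := h3 x hxq; exact ⟨by omega, this.2⟩
    · simp only [hxq, if_false]; exact ⟨by omega, le_refl _⟩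

theorem CRb.append {q l r : ℕ} (h : CRb n σ P q l (r + 1)) (hN : Node n σ l r) (hr : r ≤ n)
    (hP : P l r) : CRb n σ P (q + 1) l r := by
  obtain ⟨L, R, h1, h2, h3⟩ := h
  refine ⟨fun x => if x < q then L x else l, fun x => if x < q then R x else r, ?_, ?_, ?_⟩
  · intro x hx
    by_cases hxq : x < q
    · simp only [hxq, if_true]; exact h1 x hxq
    · simp only [hxq, if_false]; exact ⟨hN, hr, hP⟩
  · intro x hx
    have hxq : x < q := by omega
    by_cases hx1 : x + 1 < q
    · simp only [hxq, hx1, if_true]; exact h2 x hx1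
    · simp only [hxq, hx1, if_true, if_false]
      have := h3 x hxq; exact ⟨this.1, by omega⟩
  · intro x hx
    by_cases hxq : x < q
    · simp only [hxq, if_true]; have := h3 x hxq; exact ⟨this.1, by omega⟩
    · simp only [hxq, if_false]; exact ⟨le_refl _, le_refl _⟩

/-- the top of a node splits it -/
theorem split (hinj : ∀ x y, 1 ≤ x → x ≤ n → 1 ≤ y → y ≤ n → σ x = σ y → x = y) {l r : ℕ}
    (hN : Node n σ l r) : ∃ c, l < c ∧ c < r ∧ (l + 1 < c → Node n σ l c) ∧
      (c + 1 < r → Node n σ c r) := by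
  obtain ⟨h1, h2, h3, h4⟩ := hN
  obtain ⟨c, hc, hmax⟩ := Finset.exists_max_image (Finset.Ioo l r) σ ⟨l + 1, by simp; omega⟩
  rw [Finset.mem_Ioo] at hc
  have key : ∀ x, l < x → x < r → x ≠ c → σ x < σ c := by
    intro x hx1 hx2 hne
    have := hmax x (by rw [Finset.mem_Ioo]; exact ⟨hx1, hx2⟩)
    rcases lt_or_eq_of_le this with h | h
    · exact h
    · exact absurd (hinj x c (by omega) (by omega) (by omega) (by omega) h) hne
  refine ⟨c, hc.1, hc.2, ?_, ?_⟩
  · intro hlc
    exact ⟨hlc, by omega, fun hl x hx1 hx2 => h3 hl x hx1 (by omega),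
      fun _ x hx1 hx2 => key x hx1 (by omega) (by omega)⟩
  · intro hcr
    exact ⟨hcr, h2, fun _ x hx1 hx2 => key x (by omega) hx2 (by omega),
      fun hr x hx1 hx2 => h4 hr x (by omega) hx2⟩

end

section main
variable {n a b D : ℕ} {σ : ℕ → ℕ} {PL PR QL QR : ℕ → ℕ → Prop}

/-- the two bounds at level `(p, e)` -/
def S0 (n a b D : ℕ) (σ : ℕ → ℕ) (PL PR QL QR : ℕ → ℕ → Prop) (p e : ℕ) : Prop :=
  ∀ l r q1 q2 q3 q4, q1 + q2 + p = 2 * a → q3 + q4 + e = 2 * b → 1 ≤ l → r ≤ n → Node n σ l r →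
    CLb n σ PL q1 l r → CRb n σ PR q2 l (r + 1) → CLb n σ QL q3 (l + 1) r →
    CRb n σ QR q4 l r → r - l - 1 ≤ (11 * (D + 1)) ^ p * 4 ^ e

def S2 (n a b D : ℕ) (σ : ℕ → ℕ) (PL PR QL QR : ℕ → ℕ → Prop) (p e : ℕ) : Prop :=
  ∀ l r q1 q2 q3 q4, q1 + q2 + p = 2 * a → q3 + q4 + e = 2 * b → Node n σ l r →
    CLb n σ PL q1 (l + 1) r → CRb n σ PR q2 l r → CLb n σ QL q3 (l + 1) r →
    CRb n σ QR q4 l r → r - l - 1 ≤ 5 * (D + 1) * ((11 * (D + 1)) ^ p * 4 ^ e)

/-- a fresh nonempty child -/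
theorem fresh (hall : ∀ l r, Node n σ l r → PL l r ∨ PR l r ∨ (QL l r ∧ QR l r))
    (h1 : ChainL n σ PL a) (h2 : ChainR n σ PR a) (h3 : ChainL n σ QL b) (h4 : ChainR n σ QR b)
    {p e : ℕ}
    (ih2 : ∀ p', p' + 1 = p → S2 n a b D σ PL PR QL QR p' e)
    (ih0 : ∀ e', e' + 1 = e → S0 n a b D σ PL PR QL QR p e')
    {l r q1 q2 q3 q4 : ℕ} (hp : q1 + q2 + p = 2 * a) (he : q3 + q4 + e = 2 * b) (hl : 1 ≤ l)
    (hr : r ≤ n) (hN : Node n σ l r) (c1 : CLb n σ PL q1 l r) (c2 : CRb n σ PR q2 l (r + 1))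
    (c34 : (CLb n σ QL q3 l r ∧ CRb n σ QR q4 l r) ∨
      (CLb n σ QL q3 (l + 1) r ∧ CRb n σ QR q4 l (r + 1))) :
    2 * (r - l - 1) + 1 ≤ (11 * (D + 1)) ^ p * 4 ^ e := by
  have c3 : CLb n σ QL q3 (l + 1) r := by
    rcases c34 with h | h
    · exact h.1.mono (by omega) (le_refl _)
    · exact h.1
  have c4 : CRb n σ QR q4 l r := by
    rcases c34 with h | h
    · exact h.2
    · exact h.2.mono (le_refl _) (by omega)
  have b1 := c1.bound h1
  have b2 := c2.bound h2
  have b3 := c3.bound h3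
  have b4 := c4.bound h4
  -- from state 2
  have use2 : ∀ q1' q2', q1' + q2' = q1 + q2 + 1 → q1' ≤ a → q2' ≤ a →
      CLb n σ PL q1' (l + 1) r → CRb n σ PR q2' l r →
      2 * (r - l - 1) + 1 ≤ (11 * (D + 1)) ^ p * 4 ^ e := by
    intro q1' q2' hq ha1 ha2 d1 d2
    obtain ⟨p', hp'⟩ : ∃ p', p' + 1 = p := ⟨p - 1, by omega⟩
    have := ih2 p' hp' l r q1' q2' q3 q4 (by omega) he hN d1 d2 c3 c4
    subst hp'
    have hK : 1 ≤ (11 * (D + 1)) ^ p' * 4 ^ e := Nat.one_le_iff_ne_zero.2 (by positivity)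
    rw [pow_succ]
    nlinarith [Nat.mul_le_mul_left (D + 1) hK]
  rcases hall l r hN with h | h | h
  · have d1 := c1.append hN hl h
    exact use2 (q1 + 1) q2 (by omega) (d1.bound h1) b2 d1 (c2.mono (le_refl _) (by omega))
  · have d2 := c2.append hN hr h
    exact use2 q1 (q2 + 1) (by omega) b1 (d2.bound h2) (c1.mono (by omega) (le_refl _)) d2
  · have use0 : ∀ q3' q4', q3' + q4' = q3 + q4 + 1 → q3' ≤ b → q4' ≤ b →
        CLb n σ QL q3' (l + 1) r → CRb n σ QR q4' l r →
        2 * (r - l - 1) + 1 ≤ (11 * (D + 1)) ^ p * 4 ^ e := by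
      intro q3' q4' hq hb1 hb2 d3 d4
      obtain ⟨e', he'⟩ : ∃ e', e' + 1 = e := ⟨e - 1, by omega⟩
      have := ih0 e' he' l r q1 q2 q3' q4' hp (by omega) hl hr hN c1 c2 d3 d4
      subst he'
      have hK : 1 ≤ (11 * (D + 1)) ^ p * 4 ^ e' := Nat.one_le_iff_ne_zero.2 (by positivity)
      rw [pow_succ]
      nlinarith
    rcases c34 with k | k
    · have d3 := k.1.append hN hl h.1
      exact use0 (q3 + 1) q4 (by omega) (d3.bound h3) b4 d3 c4
    · have d4 := k.2.append hN hr h.2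
      exact use0 q3 (q4 + 1) (by omega) b3 (d4.bound h4) c3 d4

theorem step (hinj : ∀ x y, 1 ≤ x → x ≤ n → 1 ≤ y → y ≤ n → σ x = σ y → x = y)
    (hall : ∀ l r, Node n σ l r → PL l r ∨ PR l r ∨ (QL l r ∧ QR l r))
    (h1 : ChainL n σ PL a) (h2 : ChainR n σ PR a) (h3 : ChainL n σ QL b) (h4 : ChainR n σ QR b)
    (h5 : ChainL n σ (fun _ _ => True) D) (h6 : ChainR n σ (fun _ _ => True) D)
    {p e : ℕ}
    (ih2 : ∀ p', p' + 1 = p → S2 n a b D σ PL PR QL QR p' e)
    (ih0 : ∀ e', e' + 1 = e → S0 n a b D σ PL PR QL QR p e') :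
    S0 n a b D σ PL PR QL QR p e ∧ S2 n a b D σ PL PR QL QR p e := by
  have hK : 1 ≤ (11 * (D + 1)) ^ p * 4 ^ e := Nat.one_le_iff_ne_zero.2 (by positivity)
  constructor
  · intro l r q1 q2 q3 q4 hp he hl hr hN c1 c2 c3 c4
    obtain ⟨c, hlc, hcr, hA, hB⟩ := split hinj hN
    have sA : 2 * (c - l - 1) + 1 ≤ (11 * (D + 1)) ^ p * 4 ^ e := by
      by_cases hc : l + 1 < c
      · exact fresh hall h1 h2 h3 h4 ih2 ih0 hp he hl (by omega) (hA hc)
          (c1.mono (le_refl _) (by omega)) (c2.mono (le_refl _) (by omega))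
          (Or.inr ⟨c3.mono (le_refl _) (by omega), c4.mono (le_refl _) (by omega)⟩)
      · have : c - l - 1 = 0 := by omega
        rw [this]; exact hK
    have sB : 2 * (r - c - 1) + 1 ≤ (11 * (D + 1)) ^ p * 4 ^ e := by
      by_cases hc : c + 1 < r
      · exact fresh hall h1 h2 h3 h4 ih2 ih0 hp he (by omega) hr (hB hc)
          (c1.mono (by omega) (le_refl _)) (c2.mono (by omega) (le_refl _))
          (Or.inl ⟨c3.mono (by omega) (le_refl _), c4.mono (by omega) (le_refl _)⟩)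
      · have : r - c - 1 = 0 := by omega
        rw [this]; exact hK
    omega
  · -- state 1, right end fresh
    have T1 : ∀ (w u l r q1 q2 q3 q4 : ℕ), w + u = D → q1 + q2 + p = 2 * a → q3 + q4 + e = 2 * b →
        r ≤ n → Node n σ l r → CLb n σ PL q1 (l + 1) r → CRb n σ PR q2 l (r + 1) →
        CLb n σ QL q3 (l + 1) r → CRb n σ QR q4 l (r + 1) → CRb n σ (fun _ _ => True) u l (r + 1) →
        2 * (r - l - 1) ≤ w * ((11 * (D + 1)) ^ p * 4 ^ e + 1) := by
      intro w
      induction w with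
      | zero =>
        intro u l r q1 q2 q3 q4 hw _ _ hr hN _ _ _ _ cu
        have := (cu.append hN hr trivial).bound h6
        exact absurd this (by omega)
      | succ w ih =>
        intro u l r q1 q2 q3 q4 hw hp he hr hN c1 c2 c3 c4 cu
        obtain ⟨c, hlc, hcr, hA, hB⟩ := split hinj hN
        have cu' := cu.append hN hr trivial
        have sA : 2 * (c - l - 1) ≤ w * ((11 * (D + 1)) ^ p * 4 ^ e + 1) := by
          by_cases hc : l + 1 < c
          · exact ih (u + 1) l c q1 q2 q3 q4 (by omega) hp he (by omega) (hA hc)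
              (c1.mono (le_refl _) (by omega)) (c2.mono (le_refl _) (by omega))
              (c3.mono (le_refl _) (by omega)) (c4.mono (le_refl _) (by omega))
              (cu'.mono (le_refl _) (by omega))
          · have : c - l - 1 = 0 := by omega
            rw [this]; exact Nat.zero_le _
        have sB : 2 * (r - c - 1) + 1 ≤ (11 * (D + 1)) ^ p * 4 ^ e := by
          by_cases hc : c + 1 < r
          · exact fresh hall h1 h2 h3 h4 ih2 ih0 hp he (by omega) hr (hB hc)
              (c1.mono (by omega) (le_refl _)) (c2.mono (by omega) (le_refl _))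
              (Or.inl ⟨c3.mono (by omega) (le_refl _), c4.mono (by omega) (by omega)⟩)
          · have : r - c - 1 = 0 := by omega
            rw [this]; exact hK
        have hs : r - l - 1 = (c - l - 1) + (r - c - 1) + 1 := by omega
        rw [hs]
        clear ih hK ih0 ih2
        generalize (11 * (D + 1)) ^ p * 4 ^ e = K at sA sB ⊢
        have hm : (w + 1) * (K + 1) = w * (K + 1) + (K + 1) := by ring
        rw [hm]
        generalize w * (K + 1) = Z at sA sB ⊢
        omega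
    have T2 : ∀ (w u l r q1 q2 q3 q4 : ℕ), w + u = D → q1 + q2 + p = 2 * a → q3 + q4 + e = 2 * b →
        1 ≤ l → Node n σ l r → CLb n σ PL q1 l r → CRb n σ PR q2 l r →
        CLb n σ QL q3 l r → CRb n σ QR q4 l r → CLb n σ (fun _ _ => True) u l r →
        2 * (r - l - 1) ≤ w * ((11 * (D + 1)) ^ p * 4 ^ e + 1) := by
      intro w
      induction w with
      | zero =>
        intro u l r q1 q2 q3 q4 hw _ _ hl hN _ _ _ _ cu
        have := (cu.append hN hl trivial).bound h5
        exact absurd this (by omega)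
      | succ w ih =>
        intro u l r q1 q2 q3 q4 hw hp he hl hN c1 c2 c3 c4 cu
        obtain ⟨c, hlc, hcr, hA, hB⟩ := split hinj hN
        have hrn : r ≤ n + 1 := hN.2.1
        have cu' := cu.append hN hl trivial
        have sB : 2 * (r - c - 1) ≤ w * ((11 * (D + 1)) ^ p * 4 ^ e + 1) := by
          by_cases hc : c + 1 < r
          · exact ih (u + 1) c r q1 q2 q3 q4 (by omega) hp he (by omega) (hB hc)
              (c1.mono (by omega) (le_refl _)) (c2.mono (by omega) (le_refl _))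
              (c3.mono (by omega) (le_refl _)) (c4.mono (by omega) (le_refl _))
              (cu'.mono (by omega) (le_refl _))
          · have : r - c - 1 = 0 := by omega
            rw [this]; exact Nat.zero_le _
        have sA : 2 * (c - l - 1) + 1 ≤ (11 * (D + 1)) ^ p * 4 ^ e := by
          by_cases hc : l + 1 < c
          · exact fresh hall h1 h2 h3 h4 ih2 ih0 hp he hl (by omega) (hA hc)
              (c1.mono (le_refl _) (by omega)) (c2.mono (le_refl _) (by omega))
              (Or.inr ⟨c3.mono (by omega) (by omega), c4.mono (le_refl _) (by omega)⟩)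
          · have : c - l - 1 = 0 := by omega
            rw [this]; exact hK
        have hs : r - l - 1 = (c - l - 1) + (r - c - 1) + 1 := by omega
        rw [hs]
        clear ih hK ih0 ih2
        generalize (11 * (D + 1)) ^ p * 4 ^ e = K at sA sB ⊢
        have hm : (w + 1) * (K + 1) = w * (K + 1) + (K + 1) := by ring
        rw [hm]
        generalize w * (K + 1) = Z at sA sB ⊢
        omega
    intro l r q1 q2 q3 q4 hp he hN c1 c2 c3 c4
    obtain ⟨c, hlc, hcr, hA, hB⟩ := split hinj hN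
    have hrn : r ≤ n + 1 := hN.2.1
    have sA : 2 * (c - l - 1) ≤ D * ((11 * (D + 1)) ^ p * 4 ^ e + 1) := by
      by_cases hc : l + 1 < c
      · exact T1 D 0 l c q1 q2 q3 q4 (by omega) hp he (by omega) (hA hc)
          (c1.mono (le_refl _) (by omega)) (c2.mono (le_refl _) (by omega))
          (c3.mono (le_refl _) (by omega)) (c4.mono (le_refl _) (by omega)) (CRb.zero _ _)
      · have : c - l - 1 = 0 := by omega
        rw [this]; exact Nat.zero_le _
    have sB : 2 * (r - c - 1) ≤ D * ((11 * (D + 1)) ^ p * 4 ^ e + 1) := by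
      by_cases hc : c + 1 < r
      · exact T2 D 0 c r q1 q2 q3 q4 (by omega) hp he (by omega) (hB hc)
          (c1.mono (by omega) (le_refl _)) (c2.mono (by omega) (le_refl _))
          (c3.mono (by omega) (le_refl _)) (c4.mono (by omega) (le_refl _)) (CLb.zero _ _)
      · have : r - c - 1 = 0 := by omega
        rw [this]; exact Nat.zero_le _
    have hs : r - l - 1 = (c - l - 1) + (r - c - 1) + 1 := by omega
    rw [hs]
    generalize (11 * (D + 1)) ^ p * 4 ^ e = K at *
    nlinarith [Nat.mul_le_mul_left D hK]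

theorem all (hinj : ∀ x y, 1 ≤ x → x ≤ n → 1 ≤ y → y ≤ n → σ x = σ y → x = y)
    (hall : ∀ l r, Node n σ l r → PL l r ∨ PR l r ∨ (QL l r ∧ QR l r))
    (h1 : ChainL n σ PL a) (h2 : ChainR n σ PR a) (h3 : ChainL n σ QL b) (h4 : ChainR n σ QR b)
    (h5 : ChainL n σ (fun _ _ => True) D) (h6 : ChainR n σ (fun _ _ => True) D) :
    ∀ p e, S0 n a b D σ PL PR QL QR p e ∧ S2 n a b D σ PL PR QL QR p e := by
  intro p
  induction p with
  | zero =>
    intro e
    induction e with
    | zero =>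
      exact step hinj hall h1 h2 h3 h4 h5 h6 (fun p' hp' => absurd hp' (by omega))
        (fun e' he' => absurd he' (by omega))
    | succ e ihe =>
      refine step hinj hall h1 h2 h3 h4 h5 h6 (fun p' hp' => absurd hp' (by omega)) ?_
      intro e' he'
      obtain rfl : e' = e := by omega
      exact ihe.1
  | succ p ihp =>
    intro e
    induction e with
    | zero =>
      refine step hinj hall h1 h2 h3 h4 h5 h6 ?_ (fun e' he' => absurd he' (by omega))
      intro p' hp'
      obtain rfl : p' = p := by omega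
      exact (ihp 0).2
    | succ e ihe =>
      refine step hinj hall h1 h2 h3 h4 h5 h6 ?_ ?_
      · intro p' hp'
        obtain rfl : p' = p := by omega
        exact (ihp (e + 1)).2
      · intro e' he'
        obtain rfl : e' = e := by omega
        exact ihe.1

end main

theorem pf : S_COUNT := by
  intro n a b D σ PL PR QL QR hinj hall h1 h2 h3 h4 h5 h6
  rcases Nat.eq_zero_or_pos n with h0 | hn
  · subst h0; exact Nat.zero_le _
  have hN : Node n σ 0 (n + 1) :=
    ⟨by omega, le_refl _, fun h => absurd h (by omega), fun h => absurd h (by omega)⟩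
  have := (all hinj hall h1 h2 h3 h4 h5 h6 (2 * a) (2 * b)).2 0 (n + 1) 0 0 0 0 (by omega)
    (by omega) hN (CLb.zero _ _) (CRb.zero _ _) (CLb.zero _ _) (CRb.zero _ _)
  have e1 : n + 1 - 0 - 1 = n := by omega
  rw [e1] at this
  refine le_trans this ?_
  rw [pow_succ]
  have : 5 * (D + 1) * ((11 * (D + 1)) ^ (2 * a) * 4 ^ (2 * b)) ≤
      11 * (D + 1) * ((11 * (D + 1)) ^ (2 * a) * 4 ^ (2 * b)) :=
    Nat.mul_le_mul_right _ (by omega)
  calc _ ≤ _ := this
    _ = _ := by ring

end Pool.Agent.W184.LIP.COUNT
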