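import Pool.Agent.W184.LIP.Defs

/-!
# FLUB: from the finite bounds to bounds for `f`
-/

namespace Pool.Agent.W184.LIP.FLUB

open SimpleGraph

lemma emb {a b : ℕ} (h : a ≤ b) : (pathGraph a).IsIndContained (pathGraph b) := by
  refine ⟨⟨⟨Fin.castLE h, Fin.castLE_injective h⟩, ?_⟩⟩
  intro u v
  simp [pathGraph_adj]

lemma zero_mem (k n : ℕ) : 0 ∈ Forced k n := by
  intro N G _ _
  exact ⟨⟨⟨fun x => x.elim0, fun x => x.elim0⟩, fun {x} => x.elim0⟩⟩

lemma cont {a b : ℕ} (h : a ≤ b) {V : Type} {G : SimpleGraph V} (hG : (pathGraph b).IsContained G) :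
    (pathGraph a).IsContained G :=
  (emb h).isContained.trans hG

lemma forced_le (hUB : S_UB) {j s m e n q : ℕ} (hs : 1 ≤ s) (hm : 1 ≤ m) (hme : m = 1 ∨ e = 1)
    (hn : n ≤ (m + 1) ^ (s ^ j) - 1) (hq : q ∈ Forced (2 * j + e) n) : q ≤ m + 2 * j * s := by
  obtain ⟨N, G, h1, h2, h3⟩ := hUB j s m e hs hm hme
  exact h3 q (hq N G h1 (cont hn h2))

lemma bdd (hUB : S_UB) {k n : ℕ} (hk : 1 ≤ k) (hn : 1 ≤ n) : BddAbove (Forced k n) := by
  rcases Nat.lt_or_ge k 2 with h | h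
  · obtain rfl : k = 1 := by omega
    refine ⟨n + 2 * 0 * 1, fun q hq => ?_⟩
    exact forced_le hUB (j := 0) (s := 1) (m := n) (e := 1) (n := n) le_rfl hn (Or.inr rfl)
      (by simp) hq
  · have hk2 : 2 * (k / 2) + k % 2 = k := Nat.div_add_mod k 2
    refine ⟨1 + 2 * (k / 2) * n, fun q hq => ?_⟩
    rw [← hk2] at hq
    refine forced_le hUB (j := k / 2) (s := n) (m := 1) (e := k % 2) (n := n) hn le_rfl (Or.inl rfl)
      ?_ hq
    have h1 : n ≤ n ^ (k / 2) := Nat.le_self_pow (by omega) n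
    have h2 : n ^ (k / 2) < 2 ^ (n ^ (k / 2)) := Nat.lt_two_pow_self
    have h3 : (1 + 1 : ℕ) ^ (n ^ (k / 2)) = 2 ^ (n ^ (k / 2)) := by norm_num
    rw [h3]
    omega

theorem pf : (S_LB → S_UB → S_FLB) ∧ (S_UB → S_FUB) := by
  refine ⟨fun hLB hUB => ?_, fun hUB => ?_⟩
  · intro k i j s n hs hij hk hkij hn
    have hn1 : 1 ≤ n := by omega
    apply le_csSup (bdd hUB hk hn1)
    intro N G htw hG
    by_contra hcon
    have hall : ∀ m, (pathGraph m).IsIndContained G → m ≤ s := by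
      intro m hm
      by_contra hms
      exact hcon ((emb (by omega)).trans hm)
    have := hLB k i j s n N G hs hij hkij htw hG hall
    omega
  · intro j s m e n hs hm hme hn
    exact csSup_le ⟨0, zero_mem _ _⟩ fun q hq => forced_le hUB hs hm hme hn hq

end Pool.Agent.W184.LIP.FLUB
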